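import Mathlib

/-!
# Exceptional pairs `(F, p)` : rationality of `p` and a lower bound for the order of `F`

Let `n` be the number of vertices of `F`, `y_e = x_e - p`, and let `T k s` be the sum over all
embeddings `φ` of `Fin k` into the vertex set of the product of `y` over the images of the pairs
in `s`.  If `(F, p)` is exceptional, then every sum `T 5 s` is determined by `n`, `p` and
`E2 = T 2 {01}`: it is `(n)_5` for no pair, `(n-2)(n-3)(n-4) E2` for one pair,
`-4p(1-p)(n-2) E2` for the graph `P₃ + K₂`, and `0` otherwise.  Expanding products of `y_e + p`,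
the numbers of labelled copies of `K₅`, of `K₅` minus an edge and of `K₅` minus a path with two
edges are explicit, and they are divisible by the orders 120, 12, 4 of the automorphism groups.
Together with the quadratic relation for `E2` coming from `2K₂` (and the number of triangles,
which forces `p` to be rational) this gives the divisibility conditions.
-/

set_option autoImplicit false
set_option linter.unusedSectionVars false

open Finset

namespace Pool.Agent.Results.MP_b57267_co.ExceptionalOrderBound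


section Sums

variable {V : Type} [Fintype V] [DecidableEq V]

/-- weight sum over embeddings of `Fin k` into `V`: the product runs over the set `s` of unordered
pairs of `Fin k`. -/
noncomputable def T (Y : Sym2 V → ℝ) (k : ℕ) (s : Finset (Sym2 (Fin k))) : ℝ :=
  ∑ φ : Fin k ↪ V, ∏ e ∈ s, Y (e.map φ)

theorem T_relabel (Y : Sym2 V → ℝ) (k : ℕ) (s : Finset (Sym2 (Fin k))) (σ : Equiv.Perm (Fin k)) :
    T Y k (s.image (Sym2.map σ)) = T Y k s := by
  unfold T
  rw [← Equiv.sum_comp (Equiv.embeddingCongr σ (Equiv.refl V))]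
  refine Finset.sum_congr rfl fun φ _ => ?_
  rw [Finset.prod_image (fun a _ b _ h => Sym2.map.injective σ.injective h)]
  refine Finset.prod_congr rfl fun e _ => ?_
  congr 1
  rw [Sym2.map_map]
  congr 1
  funext x
  simp [Equiv.embeddingCongr]

/-- the points outside the range of `ψ` -/
def out {k : ℕ} (ψ : Fin k ↪ V) : Finset V := univ \ (univ.map ψ)

theorem mem_out {k : ℕ} (ψ : Fin k ↪ V) (w : V) : w ∈ out ψ ↔ w ∉ Set.range ψ := by
  simp [out]

/-- sum over embeddings of `Fin (k+1)`, new point `0` -/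
theorem sum_succ (k : ℕ) (f : (Fin (k + 1) → V) → ℝ) :
    ∑ φ : Fin (k + 1) ↪ V, f φ
      = ∑ ψ : Fin k ↪ V, ∑ w ∈ out ψ, f (Fin.cons w ψ) := by
  classical
  rw [← Equiv.sum_comp (Equiv.embeddingFinSucc k V).symm]
  rw [Fintype.sum_sigma]
  refine Finset.sum_congr rfl fun ψ _ => ?_
  rw [Finset.sum_subtype (out ψ) (mem_out ψ)]
  refine Finset.sum_congr rfl fun w _ => ?_
  rw [Equiv.coe_embeddingFinSucc_symm]

theorem card_out {k : ℕ} (ψ : Fin k ↪ V) : ((out ψ).card : ℝ) = (Fintype.card V : ℝ) - k := by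
  have h1 : (out ψ).card = Fintype.card V - k := by
    unfold out
    rw [Finset.card_sdiff_of_subset (Finset.subset_univ _)]
    simp
  have h2 : k ≤ Fintype.card V := by
    have := Fintype.card_le_of_embedding ψ
    simpa using this
  rw [h1]
  push_cast [Nat.cast_sub h2]
  ring

/-- sum over the outside of a function -/
theorem sum_out {k : ℕ} (ψ : Fin k ↪ V) (g : V → ℝ) :
    ∑ w ∈ out ψ, g w = (∑ w, g w) - ∑ i, g (ψ i) := by
  unfold out
  have := Finset.sum_sdiff (f := g) (Finset.subset_univ (univ.map ψ))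
  rw [Finset.sum_map] at this
  linarith

/-- removing the isolated point `0` -/
theorem T_isolated_zero (Y : Sym2 V → ℝ) (k : ℕ) (s : Finset (Sym2 (Fin k))) :
    T Y (k + 1) (s.image (Sym2.map Fin.succ)) = ((Fintype.card V : ℝ) - k) * T Y k s := by
  unfold T
  rw [sum_succ k (fun f => ∏ e ∈ s.image (Sym2.map Fin.succ), Y (e.map f))]
  rw [Finset.mul_sum]
  refine Finset.sum_congr rfl fun ψ _ => ?_
  have : ∀ w ∈ out ψ, (∏ e ∈ s.image (Sym2.map Fin.succ), Y (e.map (Fin.cons w ψ : Fin (k+1) → V)))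
      = ∏ e ∈ s, Y (e.map ψ) := by
    intro w _
    rw [Finset.prod_image (fun a _ b _ h => Sym2.map.injective (Fin.succ_injective k) h)]
    refine Finset.prod_congr rfl fun e _ => ?_
    rw [Sym2.map_map]
    rfl
  rw [Finset.sum_congr rfl this, Finset.sum_const, nsmul_eq_mul, card_out]

/-- the edge `01` together with a set of edges on the remaining points -/
def addEdge {k : ℕ} (B : Finset (Sym2 (Fin k))) : Finset (Sym2 (Fin (k + 2))) :=
  insert s(0, 1) (B.image (Sym2.map (Fin.succ ∘ Fin.succ)))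

/-- a pendant edge from the new point `0` to `i.succ` together with a set of edges -/
def addPendant {k : ℕ} (B : Finset (Sym2 (Fin k))) (i : Fin k) : Finset (Sym2 (Fin (k + 1))) :=
  insert s(0, i.succ) (B.image (Sym2.map Fin.succ))

theorem T_addPendant (Y : Sym2 V → ℝ) (k : ℕ) (B : Finset (Sym2 (Fin k))) (i : Fin k) :
    T Y (k + 1) (addPendant B i)
      = ∑ ψ : Fin k ↪ V, (∏ e ∈ B, Y (e.map ψ)) * ∑ w ∈ out ψ, Y s(w, ψ i) := by
  unfold T addPendant
  rw [sum_succ k (fun f => ∏ e ∈ insert s(0, i.succ) (B.image (Sym2.map Fin.succ)), Y (e.map f))]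
  refine Finset.sum_congr rfl fun ψ _ => ?_
  rw [Finset.mul_sum]
  refine Finset.sum_congr rfl fun w _ => ?_
  rw [Finset.prod_insert]
  · rw [Finset.prod_image (fun a _ b _ h => Sym2.map.injective (Fin.succ_injective k) h)]
    rw [mul_comm]
    congr 1
    refine Finset.prod_congr rfl fun e _ => ?_
    rw [Sym2.map_map]
    rfl
  · intro h
    rw [Finset.mem_image] at h
    obtain ⟨e, _, he⟩ := h
    have : (0 : Fin (k+1)) ∈ Sym2.map Fin.succ e := by
      rw [he]; simp
    rw [Sym2.mem_map] at this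
    obtain ⟨a, _, ha⟩ := this
    exact Fin.succ_ne_zero a ha

/-- the key overlap formula -/
theorem T_addEdge (Y : Sym2 V → ℝ) (hd : ∀ a, Y s(a, a) = 0) (k : ℕ) (B : Finset (Sym2 (Fin k))) :
    T Y (k + 2) (addEdge B)
      = (∑ a, ∑ b, Y s(a, b)) * T Y k B - 2 * ∑ i, T Y (k + 1) (addPendant B i)
        - ∑ ψ : Fin k ↪ V, (∏ e ∈ B, Y (e.map ψ)) * ∑ i, ∑ j, Y s(ψ i, ψ j) := by
  have h1 : T Y (k + 2) (addEdge B)
      = ∑ ψ : Fin k ↪ V, (∏ e ∈ B, Y (e.map ψ)) *
        (∑ z ∈ out ψ, ((∑ w, Y s(w, z)) - ∑ i, Y s(ψ i, z))) := by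
    unfold T addEdge
    rw [sum_succ (k+1) (fun f => ∏ e ∈ insert s(0, 1)
      (B.image (Sym2.map (Fin.succ ∘ Fin.succ))), Y (e.map f))]
    have h2 : ∀ φ : Fin (k+1) ↪ V, (∑ w ∈ out φ, ∏ e ∈ insert s(0, 1)
      (B.image (Sym2.map (Fin.succ ∘ Fin.succ))), Y (e.map (Fin.cons w φ : Fin (k+2) → V)))
        = (fun f : Fin (k+1) → V => (∏ e ∈ B, Y (e.map (f ∘ Fin.succ))) *
            ((∑ w, Y s(w, f 0)) - ∑ i, Y s(f (Fin.succ i), f 0))) φ := by
      intro φ
      have h3 : ∀ w ∈ out φ, ∏ e ∈ insert s(0, 1)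
        (B.image (Sym2.map (Fin.succ ∘ Fin.succ))), Y (e.map (Fin.cons w φ : Fin (k+2) → V))
        = (∏ e ∈ B, Y (e.map (φ ∘ Fin.succ))) * Y s(w, φ 0) := by
        intro w _
        rw [Finset.prod_insert]
        · rw [Finset.prod_image (fun a _ b _ h => Sym2.map.injective
            ((Fin.succ_injective (k+1)).comp (Fin.succ_injective k)) h)]
          rw [mul_comm]
          congr 1
          refine Finset.prod_congr rfl fun e _ => ?_
          rw [Sym2.map_map]
          rfl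
        · intro h
          rw [Finset.mem_image] at h
          obtain ⟨e, _, he⟩ := h
          have : (0 : Fin (k+2)) ∈ Sym2.map (Fin.succ ∘ Fin.succ) e := by
            rw [he]; simp
          rw [Sym2.mem_map] at this
          obtain ⟨a, _, ha⟩ := this
          exact Fin.succ_ne_zero _ ha
      rw [Finset.sum_congr rfl h3, ← Finset.mul_sum]
      simp only
      congr 1
      rw [sum_out φ (fun w => Y s(w, φ 0))]
      rw [Fin.sum_univ_succ]
      rw [hd]
      ring
    rw [Finset.sum_congr rfl (fun φ _ => h2 φ)]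
    rw [sum_succ k (fun f : Fin (k+1) → V => (∏ e ∈ B, Y (e.map (f ∘ Fin.succ))) *
            ((∑ w, Y s(w, f 0)) - ∑ i, Y s(f (Fin.succ i), f 0)))]
    refine Finset.sum_congr rfl fun ψ _ => ?_
    rw [Finset.mul_sum]
    refine Finset.sum_congr rfl fun z _ => ?_
    simp only [Fin.cons_zero, Fin.cons_succ]
    congr 1
  have h4 : ∀ ψ : Fin k ↪ V, (∑ z ∈ out ψ, ((∑ w, Y s(w, z)) - ∑ i, Y s(ψ i, z)))
      = (∑ a, ∑ b, Y s(a, b)) - 2 * (∑ i, ∑ w ∈ out ψ, Y s(w, ψ i)) 
        - ∑ i, ∑ j, Y s(ψ i, ψ j) := by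
    intro ψ
    rw [Finset.sum_sub_distrib, sum_out ψ (fun z => ∑ w, Y s(w, z))]
    have h5 : ∀ i, ∑ w, Y s(w, ψ i) = (∑ w ∈ out ψ, Y s(w, ψ i)) + ∑ j, Y s(ψ j, ψ i) := by
      intro i
      rw [sum_out ψ (fun w => Y s(w, ψ i))]
      ring
    rw [Finset.sum_congr rfl (fun i _ => h5 i), Finset.sum_add_distrib]
    have h6 : ∑ z ∈ out ψ, ∑ i, Y s(ψ i, z) = ∑ i, ∑ w ∈ out ψ, Y s(w, ψ i) := by
      rw [Finset.sum_comm]
      refine Finset.sum_congr rfl fun i _ => Finset.sum_congr rfl fun w _ => ?_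
      rw [Sym2.eq_swap]
    have h7 : ∑ x, ∑ w, Y s(w, x) = ∑ a, ∑ b, Y s(a, b) := by
      rw [Finset.sum_comm]
    have h8 : ∑ i, ∑ j, Y s(ψ j, ψ i) = ∑ i, ∑ j, Y s(ψ i, ψ j) := by
      rw [Finset.sum_comm]
    rw [h6, h7, h8]
    ring
  rw [h1]
  simp_rw [h4, T_addPendant, mul_sub]
  rw [Finset.sum_sub_distrib, Finset.sum_sub_distrib]
  congr 1
  congr 1
  · unfold T
    rw [Finset.mul_sum]
    exact Finset.sum_congr rfl fun ψ _ => mul_comm _ _
  · rw [Finset.sum_comm, Finset.mul_sum]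
    refine Finset.sum_congr rfl fun ψ _ => ?_
    rw [← Finset.mul_sum]
    ring

theorem T_zero_empty (Y : Sym2 V → ℝ) : T Y 0 ∅ = 1 := by
  simp [T]

/-- unordered pairs of `Fin (k+1)` avoiding `0` come from `Fin k` -/
theorem exists_succ_pair {k : ℕ} (e : Sym2 (Fin (k + 1))) (h : (0 : Fin (k + 1)) ∉ e) :
    ∃ e' : Sym2 (Fin k), e'.map Fin.succ = e := by
  induction e using Sym2.ind with
  | _ a b =>
    rw [Sym2.mem_iff] at h
    push Not at h
    obtain ⟨a', rfl⟩ := Fin.exists_succ_eq.mpr h.1.symm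
    obtain ⟨b', rfl⟩ := Fin.exists_succ_eq.mpr h.2.symm
    exact ⟨s(a', b'), rfl⟩

theorem T_isolated (Y : Sym2 V → ℝ) (k : ℕ) (s : Finset (Sym2 (Fin (k + 1)))) (i : Fin (k + 1))
    (hs : ∀ e ∈ s, i ∉ e) :
    ∃ s' : Finset (Sym2 (Fin k)), s'.card = s.card ∧
      ((∀ e ∈ s, ¬ e.IsDiag) → (∀ e ∈ s', ¬ e.IsDiag)) ∧
      T Y (k + 1) s = ((Fintype.card V : ℝ) - k) * T Y k s' := by
  set σ : Equiv.Perm (Fin (k + 1)) := Equiv.swap 0 i with hσ
  set s' : Finset (Sym2 (Fin k)) := univ.filter (fun e => e.map Fin.succ ∈ s.image (Sym2.map σ))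
    with hs'
  have him : s'.image (Sym2.map Fin.succ) = s.image (Sym2.map σ) := by
    ext e
    constructor
    · intro h
      rw [Finset.mem_image] at h
      obtain ⟨a, ha, rfl⟩ := h
      rw [hs', Finset.mem_filter] at ha
      exact ha.2
    · intro h
      have h0 : (0 : Fin (k+1)) ∉ e := by
        rw [Finset.mem_image] at h
        obtain ⟨a, ha, rfl⟩ := h
        intro h1
        rw [Sym2.mem_map] at h1
        obtain ⟨b, hb, hb'⟩ := h1
        have : b = i := by
          have := congrArg σ hb'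
          rw [hσ] at this
          simpa using this
        exact hs a ha (this ▸ hb)
      obtain ⟨e', rfl⟩ := exists_succ_pair e h0
      rw [Finset.mem_image]
      exact ⟨e', by rw [hs', Finset.mem_filter]; exact ⟨Finset.mem_univ _, h⟩, rfl⟩
  refine ⟨s', ?_, ?_, ?_⟩
  · rw [← Finset.card_image_of_injective s' (Sym2.map.injective (Fin.succ_injective k)), him,
      Finset.card_image_of_injective s (Sym2.map.injective σ.injective)]
  · intro hnd e he hdiag
    have h1 : e.map Fin.succ ∈ s.image (Sym2.map σ) := by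
      rw [← him]; exact Finset.mem_image_of_mem _ he
    rw [Finset.mem_image] at h1
    obtain ⟨a, ha, hae⟩ := h1
    apply hnd a ha
    rw [← Sym2.isDiag_map σ.injective, hae, Sym2.isDiag_map (Fin.succ_injective k)]
    exact hdiag
  · rw [← T_relabel Y (k+1) s σ, ← him, T_isolated_zero]

/-- every point of `Fin k` lies on a pair of `s` -/
def Covers {k : ℕ} (s : Finset (Sym2 (Fin k))) : Prop := ∀ i, ∃ e ∈ s, i ∈ e

instance {k : ℕ} (s : Finset (Sym2 (Fin k))) : Decidable (Covers s) := by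
  unfold Covers; infer_instance

/-- no diagonal pair -/
def NoDiag {k : ℕ} (s : Finset (Sym2 (Fin k))) : Prop := ∀ e ∈ s, ¬ e.IsDiag

/-- The abstract hypotheses: centred weights `Y` and vanishing of all the sums of the family. -/
structure Setting (Y : Sym2 V → ℝ) (p : ℝ) : Prop where
  diag : ∀ a, Y s(a, a) = 0
  quad : ∀ e : Sym2 V, ¬ e.IsDiag → Y e ^ 2 = (1 - 2 * p) * Y e + p * (1 - p)
  v3 : ∀ s : Finset (Sym2 (Fin 3)), NoDiag s → Covers s → T Y 3 s = 0
  v4 : ∀ s : Finset (Sym2 (Fin 4)), NoDiag s → Covers s → T Y 4 s = 0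
  v5 : ∀ s : Finset (Sym2 (Fin 5)), NoDiag s →
    (SimpleGraph.fromEdgeSet (s : Set (Sym2 (Fin 5)))).Connected → T Y 5 s = 0

/-- the ordered edge sum -/
noncomputable def E2 (Y : Sym2 V → ℝ) : ℝ := T Y 2 {s(0, 1)}

theorem E2_eq (Y : Sym2 V → ℝ) (hd : ∀ a, Y s(a, a) = 0) : E2 Y = ∑ a, ∑ b, Y s(a, b) := by
  have h := T_addEdge Y hd 0 ∅
  have h1 : addEdge (∅ : Finset (Sym2 (Fin 0))) = {s(0, 1)} := by
    simp [addEdge]
  rw [h1, T_zero_empty] at h
  unfold E2
  rw [h]
  simp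

theorem T_empty_succ (Y : Sym2 V → ℝ) (k : ℕ) :
    T Y (k + 1) ∅ = ((Fintype.card V : ℝ) - k) * T Y k ∅ := by
  have h := T_isolated_zero Y k ∅
  rwa [Finset.image_empty] at h

theorem T2_empty (Y : Sym2 V → ℝ) :
    T Y 2 ∅ = (Fintype.card V : ℝ) * ((Fintype.card V : ℝ) - 1) := by
  rw [T_empty_succ, T_empty_succ, T_zero_empty]; push_cast; ring

theorem T3_empty (Y : Sym2 V → ℝ) :
    T Y 3 ∅ = (Fintype.card V : ℝ) * ((Fintype.card V : ℝ) - 1) * ((Fintype.card V : ℝ) - 2) := by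
  rw [T_empty_succ, T2_empty]; push_cast; ring

theorem T4_empty (Y : Sym2 V → ℝ) :
    T Y 4 ∅ = (Fintype.card V : ℝ) * ((Fintype.card V : ℝ) - 1) * ((Fintype.card V : ℝ) - 2)
      * ((Fintype.card V : ℝ) - 3) := by
  rw [T_empty_succ, T3_empty]; push_cast; ring

theorem T5_empty (Y : Sym2 V → ℝ) :
    T Y 5 ∅ = (Fintype.card V : ℝ) * ((Fintype.card V : ℝ) - 1) * ((Fintype.card V : ℝ) - 2)
      * ((Fintype.card V : ℝ) - 3) * ((Fintype.card V : ℝ) - 4) := by
  rw [T_empty_succ, T4_empty]; push_cast; ring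

/-- two points: the only nonempty loopless set of pairs is the edge -/
theorem T2_one (Y : Sym2 V → ℝ) (s : Finset (Sym2 (Fin 2))) (hs : NoDiag s) (h1 : s.Nonempty) :
    T Y 2 s = E2 Y := by
  have : s = {s(0, 1)} := by
    revert s
    unfold NoDiag
    decide
  rw [this]; rfl

theorem T3_one (Y : Sym2 V → ℝ) (s : Finset (Sym2 (Fin 3))) (hs : NoDiag s) (h1 : s.card = 1) :
    T Y 3 s = ((Fintype.card V : ℝ) - 2) * E2 Y := by
  have h2 : ∃ i : Fin 3, ∀ e ∈ s, i ∉ e := by
    obtain ⟨e, rfl⟩ := Finset.card_eq_one.mp h1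
    have : ∀ e : Sym2 (Fin 3), ∃ i : Fin 3, i ∉ e := by decide
    obtain ⟨i, hi⟩ := this e
    exact ⟨i, by simpa using hi⟩
  obtain ⟨i, hi⟩ := h2
  obtain ⟨s', hc, hn, hT⟩ := T_isolated Y 2 s i hi
  rw [hT, T2_one Y s' (hn hs) (by rw [← Finset.card_pos, hc, h1]; exact one_pos)]
  push_cast; ring

theorem T4_one (Y : Sym2 V → ℝ) (s : Finset (Sym2 (Fin 4))) (hs : NoDiag s) (h1 : s.card = 1) :
    T Y 4 s = ((Fintype.card V : ℝ) - 3) * ((Fintype.card V : ℝ) - 2) * E2 Y := by
  have h2 : ∃ i : Fin 4, ∀ e ∈ s, i ∉ e := by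
    obtain ⟨e, rfl⟩ := Finset.card_eq_one.mp h1
    have : ∀ e : Sym2 (Fin 4), ∃ i : Fin 4, i ∉ e := by decide
    obtain ⟨i, hi⟩ := this e
    exact ⟨i, by simpa using hi⟩
  obtain ⟨i, hi⟩ := h2
  obtain ⟨s', hc, hn, hT⟩ := T_isolated Y 3 s i hi
  rw [hT, T3_one Y s' (hn hs) (by rw [hc, h1])]
  push_cast; ring

theorem T5_one (Y : Sym2 V → ℝ) (s : Finset (Sym2 (Fin 5))) (hs : NoDiag s) (h1 : s.card = 1) :
    T Y 5 s = ((Fintype.card V : ℝ) - 4) * ((Fintype.card V : ℝ) - 3) *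
      ((Fintype.card V : ℝ) - 2) * E2 Y := by
  have h2 : ∃ i : Fin 5, ∀ e ∈ s, i ∉ e := by
    obtain ⟨e, rfl⟩ := Finset.card_eq_one.mp h1
    have : ∀ e : Sym2 (Fin 5), ∃ i : Fin 5, i ∉ e := by decide
    obtain ⟨i, hi⟩ := this e
    exact ⟨i, by simpa using hi⟩
  obtain ⟨i, hi⟩ := h2
  obtain ⟨s', hc, hn, hT⟩ := T_isolated Y 4 s i hi
  rw [hT, T4_one Y s' (hn hs) (by rw [hc, h1])]
  push_cast; ring

/-- three points, at least two pairs: zero -/
theorem T3_two {Y : Sym2 V → ℝ} {p : ℝ} (S : Setting Y p) (s : Finset (Sym2 (Fin 3)))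
    (hs : NoDiag s) (h1 : 2 ≤ s.card) : T Y 3 s = 0 := by
  apply S.v3 s hs
  revert s
  unfold NoDiag Covers
  decide

theorem T4_two {Y : Sym2 V → ℝ} {p : ℝ} (S : Setting Y p) (s : Finset (Sym2 (Fin 4)))
    (hs : NoDiag s) (h1 : 2 ≤ s.card) : T Y 4 s = 0 := by
  by_cases hc : Covers s
  · exact S.v4 s hs hc
  · unfold Covers at hc
    push Not at hc
    obtain ⟨i, hi⟩ := hc
    obtain ⟨s', hc', hn, hT⟩ := T_isolated Y 3 s i hi
    rw [hT, T3_two S s' (hn hs) (by rw [hc']; exact h1), mul_zero]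

theorem T5_two_not_covers {Y : Sym2 V → ℝ} {p : ℝ} (S : Setting Y p) (s : Finset (Sym2 (Fin 5)))
    (hs : NoDiag s) (h1 : 2 ≤ s.card) (hc : ¬ Covers s) : T Y 5 s = 0 := by
  unfold Covers at hc
  push Not at hc
  obtain ⟨i, hi⟩ := hc
  obtain ⟨s', hc', hn, hT⟩ := T_isolated Y 4 s i hi
  rw [hT, T4_two S s' (hn hs) (by rw [hc']; exact h1), mul_zero]

/-- multiplying by one more edge -/
theorem sum_mul_edge {Y : Sym2 V → ℝ} {p : ℝ} (S : Setting Y p) (k : ℕ)
    (B : Finset (Sym2 (Fin k))) (e0 : Sym2 (Fin k)) (h0 : ¬ e0.IsDiag) :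
    ∑ ψ : Fin k ↪ V, (∏ e ∈ B, Y (e.map ψ)) * Y (e0.map ψ)
      = if e0 ∈ B then (1 - 2 * p) * T Y k B + p * (1 - p) * T Y k (B.erase e0)
        else T Y k (insert e0 B) := by
  split_ifs with h
  · unfold T
    rw [Finset.mul_sum, Finset.mul_sum, ← Finset.sum_add_distrib]
    refine Finset.sum_congr rfl fun ψ _ => ?_
    rw [← Finset.mul_prod_erase B (fun e => Y (e.map ψ)) h]
    have h1 : ¬ (e0.map ψ).IsDiag := by
      rw [Sym2.isDiag_map ψ.injective]; exact h0
    have h2 := S.quad _ h1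
    linear_combination (∏ e ∈ B.erase e0, Y (e.map ψ)) * h2
  · unfold T
    refine Finset.sum_congr rfl fun ψ _ => ?_
    rw [Finset.prod_insert h, mul_comm]

/-- the quadratic relation from the matching `2K₂` -/
theorem quad_rel {Y : Sym2 V → ℝ} {p : ℝ} (S : Setting Y p) :
    E2 Y ^ 2 = 2 * (1 - 2 * p) * E2 Y
      + 2 * p * (1 - p) * ((Fintype.card V : ℝ) * ((Fintype.card V : ℝ) - 1)) := by
  have h := T_addEdge Y S.diag 2 {s(0, 1)}
  have h1 : T Y 4 (addEdge {s(0, 1)}) = 0 := by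
    apply S.v4
    · unfold NoDiag addEdge; decide
    · unfold Covers addEdge; decide
  have h2 : ∀ i, T Y 3 (addPendant ({s(0, 1)} : Finset (Sym2 (Fin 2))) i) = 0 := by
    intro i
    apply T3_two S
    · unfold NoDiag addPendant; revert i; decide
    · unfold addPendant; revert i; decide
  have h3 : ∑ ψ : Fin 2 ↪ V, (∏ e ∈ ({s(0, 1)} : Finset (Sym2 (Fin 2))), Y (e.map ψ))
      * ∑ i, ∑ j, Y s(ψ i, ψ j) = 2 * ((1 - 2 * p) * E2 Y + p * (1 - p) * T Y 2 ∅) := by
    have h4 := sum_mul_edge S 2 {s(0, 1)} s(0, 1) (by decide)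
    rw [if_pos (by simp)] at h4
    have h5 : ({s(0, 1)} : Finset (Sym2 (Fin 2))).erase s(0, 1) = ∅ := by decide
    rw [h5] at h4
    unfold E2
    rw [← h4, Finset.mul_sum]
    refine Finset.sum_congr rfl fun ψ _ => ?_
    simp only [Fin.sum_univ_two, S.diag, Finset.prod_singleton, Sym2.map_mk]
    rw [Sym2.eq_swap (a := ψ 1) (b := ψ 0)]
    ring
  rw [h1, h3, T2_empty, ← E2_eq Y S.diag] at h
  simp only [h2, Finset.sum_const_zero, mul_zero, sub_zero] at h
  have h6 : T Y 2 {s(0, 1)} = E2 Y := rfl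
  rw [h6] at h
  linarith

theorem T_addEdge_three {Y : Sym2 V → ℝ} {p : ℝ} (S : Setting Y p) (B : Finset (Sym2 (Fin 3)))
    (hB : NoDiag B) (h2 : 2 ≤ B.card) :
    T Y 5 (addEdge B) = - (2 * (p * (1 - p)) * ∑ e ∈ B, T Y 3 (B.erase e)) := by
  have h := T_addEdge Y S.diag 3 B
  have h1 : ∀ i, T Y 4 (addPendant B i) = 0 := by
    intro i
    apply T4_two S
    · intro e he
      unfold addPendant at he
      rw [Finset.mem_insert] at he
      rcases he with rfl | he
      · rw [Sym2.mk_isDiag_iff]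
        exact (Fin.succ_ne_zero i).symm
      · rw [Finset.mem_image] at he
        obtain ⟨a, ha, rfl⟩ := he
        rw [Sym2.isDiag_map (Fin.succ_injective 3)]
        exact hB a ha
    · refine le_trans h2 ?_
      rw [← Finset.card_image_of_injective B (Sym2.map.injective (Fin.succ_injective 3))]
      exact Finset.card_le_card (Finset.subset_insert _ _)
  have h3 : T Y 3 B = 0 := T3_two S B hB h2
  have h4 : ∑ ψ : Fin 3 ↪ V, (∏ e ∈ B, Y (e.map ψ)) * ∑ i, ∑ j, Y s(ψ i, ψ j)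
      = 2 * (p * (1 - p)) * ∑ e ∈ B, T Y 3 (B.erase e) := by
    have h5 : ∀ ψ : Fin 3 ↪ V, (∏ e ∈ B, Y (e.map ψ)) * ∑ i, ∑ j, Y s(ψ i, ψ j)
        = 2 * ∑ e0 ∈ (univ : Finset (Sym2 (Fin 3))).filter (fun e => ¬ e.IsDiag),
          (∏ e ∈ B, Y (e.map ψ)) * Y (e0.map ψ) := by
      intro ψ
      have h6 : (univ : Finset (Sym2 (Fin 3))).filter (fun e => ¬ e.IsDiag)
        = {s(0, 1), s(0, 2), s(1, 2)} := by decide
      rw [h6, Finset.sum_insert (by decide), Finset.sum_insert (by decide),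
        Finset.sum_singleton]
      simp only [Fin.sum_univ_three, S.diag, Sym2.map_mk]
      rw [Sym2.eq_swap (a := ψ 1) (b := ψ 0), Sym2.eq_swap (a := ψ 2) (b := ψ 0),
        Sym2.eq_swap (a := ψ 2) (b := ψ 1)]
      ring
    rw [Finset.sum_congr rfl (fun ψ _ => h5 ψ), ← Finset.mul_sum, Finset.sum_comm]
    have h7 : ∀ e0 ∈ (univ : Finset (Sym2 (Fin 3))).filter (fun e => ¬ e.IsDiag),
        ∑ ψ : Fin 3 ↪ V, (∏ e ∈ B, Y (e.map ψ)) * Y (e0.map ψ)
          = if e0 ∈ B then p * (1 - p) * T Y 3 (B.erase e0) else 0 := by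
      intro e0 he0
      rw [Finset.mem_filter] at he0
      rw [sum_mul_edge S 3 B e0 he0.2]
      split_ifs with h8
      · rw [h3]; ring
      · apply T3_two S
        · intro e he
          rw [Finset.mem_insert] at he
          rcases he with rfl | he
          · exact he0.2
          · exact hB e he
        · exact le_trans h2 (Finset.card_le_card (Finset.subset_insert _ _))
    rw [Finset.sum_congr rfl h7, ← Finset.sum_filter]
    have h9 : ((univ : Finset (Sym2 (Fin 3))).filter (fun e => ¬ e.IsDiag)).filter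
        (fun e => e ∈ B) = B := by
      ext e
      rw [Finset.mem_filter, Finset.mem_filter]
      exact ⟨fun h => h.2, fun h => ⟨⟨Finset.mem_univ _, hB e h⟩, h⟩⟩
    rw [h9, ← Finset.mul_sum]
    ring
  rw [h, h3, h4]
  simp only [h1, Finset.sum_const_zero, mul_zero, zero_sub]
  ring

theorem T_addEdge_three_two {Y : Sym2 V → ℝ} {p : ℝ} (S : Setting Y p)
    (B : Finset (Sym2 (Fin 3))) (hB : NoDiag B) (h2 : B.card = 2) :
    T Y 5 (addEdge B) = - (4 * p * (1 - p) * ((Fintype.card V : ℝ) - 2) * E2 Y) := by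
  rw [T_addEdge_three S B hB (by omega)]
  have : ∀ e ∈ B, T Y 3 (B.erase e) = ((Fintype.card V : ℝ) - 2) * E2 Y := by
    intro e he
    apply T3_one
    · intro a ha
      exact hB a (Finset.mem_of_mem_erase ha)
    · rw [Finset.card_erase_of_mem he, h2]
  rw [Finset.sum_congr rfl this, Finset.sum_const, h2]
  simp only [nsmul_eq_mul]
  push_cast
  ring

theorem T_addEdge_three_three {Y : Sym2 V → ℝ} {p : ℝ} (S : Setting Y p)
    (B : Finset (Sym2 (Fin 3))) (hB : NoDiag B) (h2 : 3 ≤ B.card) :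
    T Y 5 (addEdge B) = 0 := by
  rw [T_addEdge_three S B hB (by omega)]
  have : ∀ e ∈ B, T Y 3 (B.erase e) = 0 := by
    intro e he
    apply T3_two S
    · intro a ha
      exact hB a (Finset.mem_of_mem_erase ha)
    · rw [Finset.card_erase_of_mem he]; omega
  rw [Finset.sum_congr rfl this, Finset.sum_const_zero]
  ring

end Sums

/-- structure of covering disconnected edge sets on five points -/
theorem exists_closed_pair (s : Finset (Sym2 (Fin 5))) (hs : NoDiag s) (hc : Covers s)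
    (hn : ¬ (SimpleGraph.fromEdgeSet (s : Set (Sym2 (Fin 5)))).Connected) :
    ∃ a b : Fin 5, a ≠ b ∧ s(a, b) ∈ s ∧
      ∀ e ∈ s, e = s(a, b) ∨ (a ∉ e ∧ b ∉ e) := by
  classical
  set H := SimpleGraph.fromEdgeSet (s : Set (Sym2 (Fin 5))) with hH
  have hadj : ∀ a b, H.Adj a b ↔ s(a, b) ∈ s ∧ a ≠ b := by
    intro a b
    rw [hH, SimpleGraph.fromEdgeSet_adj]
    simp
  have h1 : ∃ u v, ¬ H.Reachable u v := by
    by_contra h
    push Not at h
    exact hn ⟨h⟩
  obtain ⟨u, v, huv⟩ := h1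
  set C : Finset (Fin 5) := univ.filter (fun x => H.Reachable u x) with hC
  have hClosed : ∀ x y, H.Adj x y → (x ∈ C ↔ y ∈ C) := by
    intro x y hxy
    rw [hC, Finset.mem_filter, Finset.mem_filter]
    constructor
    · rintro ⟨_, h⟩
      exact ⟨Finset.mem_univ _, h.trans hxy.reachable⟩
    · rintro ⟨_, h⟩
      exact ⟨Finset.mem_univ _, h.trans hxy.symm.reachable⟩
  have huC : u ∈ C := by rw [hC, Finset.mem_filter]; exact ⟨Finset.mem_univ _, SimpleGraph.Reachable.refl u⟩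
  have hvC : v ∉ C := by rw [hC, Finset.mem_filter]; exact fun h => huv h.2
  -- a small closed set
  have hD : ∃ D : Finset (Fin 5), D.Nonempty ∧ D.card ≤ 2 ∧
      ∀ x y, H.Adj x y → (x ∈ D ↔ y ∈ D) := by
    by_cases h : C.card ≤ 2
    · exact ⟨C, ⟨u, huC⟩, h, hClosed⟩
    · refine ⟨Cᶜ, ⟨v, Finset.mem_compl.mpr hvC⟩, ?_, ?_⟩
      · rw [Finset.card_compl, Fintype.card_fin]; omega
      · intro x y hxy
        rw [Finset.mem_compl, Finset.mem_compl, hClosed x y hxy]
  obtain ⟨D, hne, hcard, hcl⟩ := hD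
  obtain ⟨a, ha⟩ := hne
  obtain ⟨e, he, hae⟩ := hc a
  obtain ⟨b, rfl⟩ := Sym2.mem_iff_exists.mp hae
  have hab : a ≠ b := by
    intro h
    apply hs _ he
    rw [h]; simp
  have hadjab : H.Adj a b := (hadj a b).mpr ⟨he, hab⟩
  have hb : b ∈ D := (hcl a b hadjab).mp ha
  have hDeq : D = {a, b} := by
    symm
    apply Finset.eq_of_subset_of_card_le
    · intro x hx
      rw [Finset.mem_insert, Finset.mem_singleton] at hx
      rcases hx with rfl | rfl <;> assumption
    · rw [Finset.card_pair hab]; exact hcard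
  refine ⟨a, b, hab, he, ?_⟩
  intro f hf
  induction f using Sym2.ind with
  | _ x y =>
    have hxy : x ≠ y := by
      intro h
      apply hs _ hf
      rw [h]; simp
    have hadjxy : H.Adj x y := (hadj x y).mpr ⟨hf, hxy⟩
    have hiff := hcl x y hadjxy
    rw [hDeq] at hiff
    simp only [Finset.mem_insert, Finset.mem_singleton] at hiff
    rw [Sym2.mem_iff, Sym2.mem_iff, Sym2.eq_iff]
    have hba := hab.symm
    have hyx := hxy.symm
    by_cases h1 : x = a
    · subst h1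
      have := hiff.mp (Or.inl rfl)
      rcases this with h | h
      · exact absurd h hyx
      · left; left; exact ⟨rfl, h⟩
    · by_cases h2 : x = b
      · subst h2
        have := hiff.mp (Or.inr rfl)
        rcases this with h | h
        · left; right; exact ⟨rfl, h⟩
        · exact absurd h hyx
      · right
        have h3 : ¬ (y = a ∨ y = b) := fun h => by
          rcases hiff.mpr h with h | h
          · exact h1 h
          · exact h2 h
        push Not at h3
        refine ⟨?_, ?_⟩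
        · rintro (h | h)
          · exact h1 h.symm
          · exact h3.1 h.symm
        · rintro (h | h)
          · exact h2 h.symm
          · exact h3.2 h.symm

theorem exists_perm_pair (a b : Fin 5) (hab : a ≠ b) :
    ∃ σ : Equiv.Perm (Fin 5), σ a = 0 ∧ σ b = 1 := by
  refine ⟨Equiv.swap 1 (Equiv.swap 0 a b) * Equiv.swap 0 a, ?_, ?_⟩
  · rw [Equiv.Perm.mul_apply, Equiv.swap_apply_right]
    apply Equiv.swap_apply_of_ne_of_ne
    · decide
    · intro h
      have : Equiv.swap 0 a a = Equiv.swap 0 a b := by rw [← h, Equiv.swap_apply_right]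
      exact hab ((Equiv.swap 0 a).injective this)
  · rw [Equiv.Perm.mul_apply, Equiv.swap_apply_right]

theorem pair_avoiding (e : Sym2 (Fin 5)) (h0 : (0 : Fin 5) ∉ e) (h1 : (1 : Fin 5) ∉ e) :
    ∃ e' : Sym2 (Fin 3), e'.map (Fin.succ ∘ Fin.succ) = e := by
  revert e
  decide

theorem exists_addEdge (s : Finset (Sym2 (Fin 5))) (hs : NoDiag s) (hc : Covers s)
    (hn : ¬ (SimpleGraph.fromEdgeSet (s : Set (Sym2 (Fin 5)))).Connected) :
    ∃ (B : Finset (Sym2 (Fin 3))) (σ : Equiv.Perm (Fin 5)), NoDiag B ∧ 2 ≤ B.card ∧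
      s.card = B.card + 1 ∧ s.image (Sym2.map σ) = addEdge B := by
  obtain ⟨a, b, hab, habs, hcl⟩ := exists_closed_pair s hs hc hn
  obtain ⟨σ, h0, h1⟩ := exists_perm_pair a b hab
  set s2 := s.image (Sym2.map σ) with hs2
  have hinj : Function.Injective ((Fin.succ : Fin 4 → Fin 5) ∘ (Fin.succ : Fin 3 → Fin 4)) :=
    (Fin.succ_injective 4).comp (Fin.succ_injective 3)
  set B : Finset (Sym2 (Fin 3)) := univ.filter
    (fun e => e.map ((Fin.succ : Fin 4 → Fin 5) ∘ (Fin.succ : Fin 3 → Fin 4)) ∈ s2) with hB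
  have hmem : s(0, 1) ∈ s2 := by
    rw [hs2, Finset.mem_image]
    exact ⟨s(a, b), habs, by rw [Sym2.map_mk]; simp [h0, h1]⟩
  have hcl2 : ∀ e ∈ s2, e = s(0, 1) ∨ ((0 : Fin 5) ∉ e ∧ (1 : Fin 5) ∉ e) := by
    intro e he
    rw [hs2, Finset.mem_image] at he
    obtain ⟨f, hf, rfl⟩ := he
    rcases hcl f hf with rfl | ⟨h2, h3⟩
    · left; rw [Sym2.map_mk]; simp [h0, h1]
    · right
      constructor
      · intro h
        rw [Sym2.mem_map] at h
        obtain ⟨x, hx, hx'⟩ := h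
        rw [← h0] at hx'
        exact h2 (σ.injective hx' ▸ hx)
      · intro h
        rw [Sym2.mem_map] at h
        obtain ⟨x, hx, hx'⟩ := h
        rw [← h1] at hx'
        exact h3 (σ.injective hx' ▸ hx)
  have heq : s2 = addEdge B := by
    ext e
    unfold addEdge
    constructor
    · intro he
      rcases hcl2 e he with h | ⟨h2, h3⟩
      · rw [h]; exact Finset.mem_insert_self _ _
      · apply Finset.mem_insert_of_mem
        obtain ⟨e', rfl⟩ := pair_avoiding e h2 h3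
        exact Finset.mem_image_of_mem _
          (by rw [hB, Finset.mem_filter]; exact ⟨Finset.mem_univ _, he⟩)
    · intro he
      rcases Finset.mem_insert.mp he with rfl | he
      · exact hmem
      · obtain ⟨e', he', rfl⟩ := Finset.mem_image.mp he
        rw [hB, Finset.mem_filter] at he'
        exact he'.2
  have hBn : NoDiag B := by
    intro e he hd
    rw [hB, Finset.mem_filter] at he
    have h2 := he.2
    rw [hs2, Finset.mem_image] at h2
    obtain ⟨f, hf, hfe⟩ := h2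
    apply hs f hf
    rw [← Sym2.isDiag_map σ.injective, hfe, Sym2.isDiag_map hinj]
    exact hd
  have hBc : Covers B := by
    intro i
    obtain ⟨e, he, hie⟩ := hc (σ.symm (Fin.succ (Fin.succ i)))
    have h2 : e.map σ ∈ s2 := Finset.mem_image_of_mem _ he
    have h3 : Fin.succ (Fin.succ i) ∈ e.map σ := by
      rw [Sym2.mem_map]
      exact ⟨_, hie, by simp⟩
    have h4 : e.map σ ∈ addEdge B := heq ▸ h2
    unfold addEdge at h4
    rw [Finset.mem_insert, Finset.mem_image] at h4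
    rcases h4 with h4 | ⟨e', he', h4⟩
    · exfalso
      rw [h4] at h3
      have : ∀ i : Fin 3, ¬ (Fin.succ (Fin.succ i) ∈ (s(0, 1) : Sym2 (Fin 5))) := by decide
      exact this i h3
    · refine ⟨e', he', ?_⟩
      rw [← h4, Sym2.mem_map] at h3
      obtain ⟨x, hx, hx'⟩ := h3
      exact hinj hx' ▸ hx
  refine ⟨B, σ, hBn, ?_, ?_, heq⟩
  · revert hBc hBn
    generalize B = B'
    revert B'
    unfold NoDiag Covers
    decide
  · rw [← Finset.card_image_of_injective s (Sym2.map.injective σ.injective)]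
    change s2.card = _
    rw [heq]
    unfold addEdge
    rw [Finset.card_insert_of_notMem, Finset.card_image_of_injective _ (Sym2.map.injective hinj)]
    intro h
    rw [Finset.mem_image] at h
    obtain ⟨x, _, hx⟩ := h
    have : (0 : Fin 5) ∈ x.map ((Fin.succ : Fin 4 → Fin 5) ∘ (Fin.succ : Fin 3 → Fin 4)) := by
      rw [hx]; simp
    rw [Sym2.mem_map] at this
    obtain ⟨y, _, hy⟩ := this
    exact Fin.succ_ne_zero _ hy

theorem card_of_connected (s : Finset (Sym2 (Fin 5)))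
    (hn : (SimpleGraph.fromEdgeSet (s : Set (Sym2 (Fin 5)))).Connected) : 4 ≤ s.card := by
  have h := hn.card_vert_le_card_edgeSet_add_one
  rw [Nat.card_eq_fintype_card, Fintype.card_fin] at h
  have h2 : (SimpleGraph.fromEdgeSet (s : Set (Sym2 (Fin 5)))).edgeSet ⊆ (s : Set (Sym2 (Fin 5))) := by
    rw [SimpleGraph.edgeSet_fromEdgeSet]
    exact Set.sdiff_subset
  have h3 := Nat.card_mono (Finset.finite_toSet s) h2
  have h4 : Nat.card (s : Set (Sym2 (Fin 5))) = s.card := by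
    rw [Nat.card_coe_set_eq, Set.ncard_coe_finset]
  omega

section Sums2

variable {V : Type} [Fintype V] [DecidableEq V]

/-- the value of every five point sum -/
noncomputable def L5 (n p E : ℝ) (s : Finset (Sym2 (Fin 5))) : ℝ :=
  if s.card = 0 then n * (n - 1) * (n - 2) * (n - 3) * (n - 4)
  else if s.card = 1 then (n - 4) * (n - 3) * (n - 2) * E
  else if s.card = 3 ∧ Covers s then - (4 * p * (1 - p) * (n - 2) * E)
  else 0

theorem T5_eq {Y : Sym2 V → ℝ} {p : ℝ} (S : Setting Y p) (s : Finset (Sym2 (Fin 5)))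
    (hs : NoDiag s) : T Y 5 s = L5 (Fintype.card V) p (E2 Y) s := by
  unfold L5
  split_ifs with h0 h1 h2
  · rw [Finset.card_eq_zero] at h0
    rw [h0, T5_empty]
  · exact T5_one Y s hs h1
  · have hn : ¬ (SimpleGraph.fromEdgeSet (s : Set (Sym2 (Fin 5)))).Connected := by
      intro h
      have := card_of_connected s h
      omega
    obtain ⟨B, σ, hB, hB2, hcard, him⟩ := exists_addEdge s hs h2.2 hn
    rw [← T_relabel Y 5 s σ, him]
    exact T_addEdge_three_two S B hB (by omega)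
  · by_cases hc : Covers s
    · by_cases hn : (SimpleGraph.fromEdgeSet (s : Set (Sym2 (Fin 5)))).Connected
      · exact S.v5 s hs hn
      · obtain ⟨B, σ, hB, hB2, hcard, him⟩ := exists_addEdge s hs hc hn
        rw [← T_relabel Y 5 s σ, him]
        apply T_addEdge_three_three S B hB
        have : s.card ≠ 3 := fun h => h2 ⟨h, hc⟩
        omega
    · exact T5_two_not_covers S s hs (by omega) hc

end Sums2



/-- permutations preserving a set of pairs -/
def symGroup {k : ℕ} (s : Finset (Sym2 (Fin k))) : Subgroup (Equiv.Perm (Fin k)) where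
  carrier := {σ | s.image (Sym2.map σ) = s}
  one_mem' := by
    show s.image (Sym2.map (1 : Equiv.Perm (Fin k))) = s
    rw [Equiv.Perm.coe_one, Sym2.map_id, Finset.image_id]
  mul_mem' := by
    intro a b ha hb
    show s.image (Sym2.map (a * b : Equiv.Perm (Fin k))) = s
    rw [Equiv.Perm.coe_mul, Sym2.map_comp, ← Finset.image_image]
    have ha' : s.image (Sym2.map a) = s := ha
    have hb' : s.image (Sym2.map b) = s := hb
    rw [hb', ha']
  inv_mem' := by
    intro a ha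
    show s.image (Sym2.map (a⁻¹ : Equiv.Perm (Fin k))) = s
    have ha' : s.image (Sym2.map a) = s := ha
    nth_rewrite 1 [← ha']
    rw [Finset.image_image, ← Sym2.map_comp, ← Equiv.Perm.coe_mul, inv_mul_cancel,
      Equiv.Perm.coe_one, Sym2.map_id, Finset.image_id]

theorem dvd_count {V : Type} [Fintype V] [DecidableEq V] (k : ℕ) (s : Finset (Sym2 (Fin k)))
    (P : Sym2 V → Prop) [DecidablePred P] :
    (univ.filter (fun σ : Equiv.Perm (Fin k) => s.image (Sym2.map σ) = s)).card ∣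
      (univ.filter (fun φ : Fin k ↪ V => ∀ e ∈ s, P (e.map φ))).card := by
  classical
  let X := {φ : Fin k ↪ V // ∀ e ∈ s, P (e.map φ)}
  let G := symGroup s
  let act : MulAction G X :=
    { smul := fun g x => ⟨(g.1⁻¹ : Equiv.Perm (Fin k)).toEmbedding.trans x.1, by
        intro e he
        have h1 : e.map (g.1⁻¹ : Equiv.Perm (Fin k)) ∈ s := by
          have h2 : s.image (Sym2.map (g.1⁻¹ : Equiv.Perm (Fin k))) = s := (symGroup s).inv_mem g.2
          rw [← h2]
          exact Finset.mem_image_of_mem _ he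
        have h3 := x.2 _ h1
        rw [Sym2.map_map] at h3
        exact h3⟩
      one_smul := by
        intro x
        apply Subtype.ext
        ext i
        rfl
      mul_smul := by
        intro a b x
        apply Subtype.ext
        ext i
        show x.1 ((a * b : G).1⁻¹ i) = x.1 (b.1⁻¹ (a.1⁻¹ i))
        rw [Subgroup.coe_mul, mul_inv_rev, Equiv.Perm.mul_apply] }
  have hfree : ∀ g : G, g ≠ 1 → ∀ x : X, g • x ≠ x := by
    intro g hg x hx
    apply hg
    have h1 : ∀ i, x.1 (g.1⁻¹ i) = x.1 i := by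
      intro i
      have := congrArg (fun y : X => y.1 i) hx
      exact this
    have h2 : g.1⁻¹ = 1 := by
      ext i
      rw [x.1.injective (h1 i)]
      rfl
    apply Subtype.ext
    rw [inv_eq_one] at h2
    exact h2
  have hb := MulAction.sum_card_fixedBy_eq_card_orbits_mul_card_group G X
  rw [Finset.sum_eq_single (1 : G)] at hb
  · have h3 : Fintype.card (MulAction.fixedBy X (1 : G)) = Fintype.card X := by
      apply Fintype.card_congr
      exact (Equiv.setCongr (by ext x; simp)).trans (Equiv.Set.univ X)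
    rw [h3] at hb
    have h4 : Fintype.card X = (univ.filter (fun φ : Fin k ↪ V => ∀ e ∈ s, P (e.map φ))).card :=
      Fintype.card_subtype _
    have h5 : Fintype.card G
        = (univ.filter (fun σ : Equiv.Perm (Fin k) => s.image (Sym2.map σ) = s)).card := by
      rw [← Fintype.card_subtype]
      exact Fintype.card_congr (Equiv.refl _)
    rw [← h4, ← h5, hb]
    exact Dvd.intro_left _ rfl
  · intro g _ hg
    rw [Fintype.card_eq_zero_iff]
    exact ⟨fun x => hfree g hg x.1 x.2⟩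
  · intro h
    exact absurd (Finset.mem_univ _) h



theorem sum_powerset_three {α : Type} [DecidableEq α] (s : Finset α) (p A0 A1 A3 : ℝ)
    (Q : Finset α → Prop) [DecidablePred Q] :
    ∑ t ∈ s.powerset, p ^ (s.card - t.card) *
        (if t.card = 0 then A0 else if t.card = 1 then A1 else if t.card = 3 ∧ Q t then A3 else 0)
      = p ^ s.card * A0 + s.card * p ^ (s.card - 1) * A1
        + ((s.powersetCard 3).filter Q).card * p ^ (s.card - 3) * A3 := by
  have h1 : ∀ t ∈ s.powerset, p ^ (s.card - t.card) *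
        (if t.card = 0 then A0 else if t.card = 1 then A1 else if t.card = 3 ∧ Q t then A3 else 0)
      = (if t.card = 0 then p ^ s.card * A0 else 0) + (if t.card = 1 then p ^ (s.card - 1) * A1
          else 0) + (if t.card = 3 then (if Q t then p ^ (s.card - 3) * A3 else 0) else 0) := by
    intro t _
    by_cases h0 : t.card = 0
    · simp [h0]
    · by_cases h1 : t.card = 1
      · simp [h1]
      · by_cases h3 : t.card = 3
        · by_cases hq : Q t <;> simp [h3, hq]
        · simp [h0, h1, h3]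
  rw [Finset.sum_congr rfl h1, Finset.sum_add_distrib, Finset.sum_add_distrib]
  rw [← Finset.sum_filter, ← Finset.sum_filter, ← Finset.sum_filter]
  rw [← Finset.powersetCard_eq_filter, ← Finset.powersetCard_eq_filter,
    ← Finset.powersetCard_eq_filter, ← Finset.sum_filter]
  rw [Finset.sum_const, Finset.sum_const, Finset.sum_const]
  rw [Finset.card_powersetCard, Finset.card_powersetCard]
  simp only [nsmul_eq_mul, Nat.choose_zero_right, Nat.choose_one_right, Nat.cast_one, one_mul]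
  ring


theorem prod_pairs {k : ℕ} (s : Finset (Sym2 (Fin k))) (hs : ∀ e ∈ s, ¬ e.IsDiag)
    (W : Sym2 (Fin k) → ℝ) (D : Fin k → Fin k → Prop) [∀ i j, Decidable (D i j)]
    (hD : ∀ i j, D i j ↔ (i < j ∧ s(i, j) ∈ s)) :
    ∏ i : Fin k, ∏ j : Fin k, (if D i j then W s(i, j) else 1) = ∏ e ∈ s, W e := by
  rw [← Finset.prod_product' univ univ (fun i j => if D i j then W s(i, j) else 1)]
  rw [← Finset.prod_filter]
  refine Finset.prod_bij (fun x _ => s(x.1, x.2)) ?_ ?_ ?_ ?_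
  · intro x hx
    rw [Finset.mem_filter, hD] at hx
    exact hx.2.2
  · intro x hx y hy h
    rw [Finset.mem_filter, hD] at hx hy
    rw [Sym2.eq_iff] at h
    rcases h with ⟨h1, h2⟩ | ⟨h1, h2⟩
    · exact Prod.ext h1 h2
    · exfalso
      have h3 := hx.2.1
      have h4 := hy.2.1
      rw [h1, h2] at h3
      exact lt_asymm h3 h4
  · intro e he
    induction e using Sym2.ind with
    | _ a b =>
      have hab : a ≠ b := fun h => hs _ he (by rw [h]; simp)
      rcases lt_or_gt_of_ne hab with h | h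
      · refine ⟨(a, b), ?_, rfl⟩
        rw [Finset.mem_filter, hD]
        exact ⟨Finset.mem_univ _, h, he⟩
      · refine ⟨(b, a), ?_, Sym2.eq_swap⟩
        rw [Finset.mem_filter, hD]
        refine ⟨Finset.mem_univ _, h, ?_⟩
        rw [Sym2.eq_swap]; exact he
  · intro x hx
    rfl



/-- the integer relations coming from a hypothetical exceptional pair -/
structure Rel (n u w t k5 k9 k8 N : ℤ) : Prop where
  hn : 3 ≤ n
  hu : 0 < u
  hw : 0 < w
  hc : IsCoprime u w
  hN : 2 * N = n * (n - 1)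
  ht : t * (t + u - w) = u * w * N
  h5 : 120 * (u + w) ^ 10 * k5 = u ^ 8 * (u ^ 2 * (n * (n - 1) * (n - 2) * (n - 3) * (n - 4))
    + 20 * (u * t * ((n - 2) * (n - 3) * (n - 4))) - 240 * (w * (n - 2) * t))
  h9 : 12 * (u + w) ^ 9 * k9 = u ^ 7 * (u ^ 2 * (n * (n - 1) * (n - 2) * (n - 3) * (n - 4))
    + 18 * (u * t * ((n - 2) * (n - 3) * (n - 4))) - 168 * (w * (n - 2) * t))
  h8 : 4 * (u + w) ^ 8 * k8 = u ^ 6 * (u ^ 2 * (n * (n - 1) * (n - 2) * (n - 3) * (n - 4))
    + 16 * (u * t * ((n - 2) * (n - 3) * (n - 4))) - 104 * (w * (n - 2) * t))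

variable {n u w t k5 k9 k8 N : ℤ}

theorem Rel.cop_u (R : Rel n u w t k5 k9 k8 N) : IsCoprime (u + w) u := by
  have := R.hc.symm
  have h2 : IsCoprime (w + 1 * u) u := this.add_mul_right_left 1
  rwa [one_mul, add_comm] at h2

theorem Rel.cop_w (R : Rel n u w t k5 k9 k8 N) : IsCoprime (u + w) w := by
  have := R.hc
  have h2 : IsCoprime (u + 1 * w) w := this.add_mul_right_left 1
  rwa [one_mul] at h2

theorem Rel.dvd_tau (R : Rel n u w t k5 k9 k8 N) : (u + w) ^ 8 ∣ 2 * ((n - 2) * t) := by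
  have h : 4 * ((u ^ 8 * w) * (2 * ((n - 2) * t)))
      = 4 * ((u + w) ^ 8 * (6 * (u + w) * u * k9 - u ^ 2 * k8 - 30 * (u + w) ^ 2 * k5)) := by
    linear_combination (-2) * u * R.h9 + u ^ 2 * R.h8 + R.h5
  have h2 := mul_left_cancel₀ (by norm_num : (4 : ℤ) ≠ 0) h
  have h3 : (u + w) ^ 8 ∣ (u ^ 8 * w) * (2 * ((n - 2) * t)) := ⟨_, h2⟩
  have h4 : IsCoprime ((u + w) ^ 8) (u ^ 8 * w) := by
    apply IsCoprime.pow_left
    exact (IsCoprime.pow_right R.cop_u).mul_right R.cop_w
  exact h4.dvd_of_dvd_mul_left h3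

theorem Rel.dvd_tau' (R : Rel n u w t k5 k9 k8 N) :
    6 * (u + w) ^ 9 * (10 * (u + w) * k5 - u * k9)
      = u ^ 8 * (t * (n - 2) * (u * ((n - 3) * (n - 4)) - 36 * w)) := by
  have h : 2 * (6 * (u + w) ^ 9 * (10 * (u + w) * k5 - u * k9))
      = 2 * (u ^ 8 * (t * (n - 2) * (u * ((n - 3) * (n - 4)) - 36 * w))) := by
    linear_combination R.h5 - u * R.h9
  exact mul_left_cancel₀ (by norm_num : (2 : ℤ) ≠ 0) h

theorem Rel.dvd_n (R : Rel n u w t k5 k9 k8 N) : (u + w) ^ 8 ∣ n * (n - 1) * (n - 2) := by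
  have h1 : (u + w) ^ 8 ∣ (u * w) * (n * (n - 1) * (n - 2)) := by
    have h2 : (u * w) * (n * (n - 1) * (n - 2)) = (2 * ((n - 2) * t)) * (t + u - w) := by
      linear_combination (-(u * w) * (n - 2)) * R.hN + (-2 * (n - 2)) * R.ht
    rw [h2]
    exact Dvd.dvd.mul_right R.dvd_tau _
  have h4 : IsCoprime ((u + w) ^ 8) (u * w) := by
    apply IsCoprime.pow_left
    exact R.cop_u.mul_right R.cop_w
  exact h4.dvd_of_dvd_mul_left h1

/-- an odd prime divides at most one of three consecutive integers -/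
theorem prime_pow_split (q : ℤ) (hq : Prime q) (h2 : ¬ q ∣ 2) (k : ℕ) (m : ℤ)
    (h : q ^ k ∣ m * (m - 1) * (m - 2)) : q ^ k ∣ m ∨ q ^ k ∣ m - 1 ∨ q ^ k ∣ m - 2 := by
  have h1 : ¬ q ∣ 1 := fun h => hq.not_isUnit (isUnit_of_dvd_one h)
  by_cases ha : q ∣ m
  · left
    have hb : ¬ q ∣ m - 1 := fun hb => h1 (by have := dvd_sub ha hb; rwa [sub_sub_cancel] at this)
    have hc : ¬ q ∣ m - 2 := fun hb => h2 (by have := dvd_sub ha hb; rwa [sub_sub_cancel] at this)
    exact hq.pow_dvd_of_dvd_mul_right k hb (hq.pow_dvd_of_dvd_mul_right k hc h)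
  · right
    by_cases hb : q ∣ m - 1
    · left
      have hc : ¬ q ∣ m - 2 := fun hc => h1 (by
        have := dvd_sub hb hc
        have h3 : m - 1 - (m - 2) = 1 := by ring
        rwa [h3] at this)
      exact hq.pow_dvd_of_dvd_mul_left k ha (hq.pow_dvd_of_dvd_mul_right k hc h)
    · right
      refine hq.pow_dvd_of_dvd_mul_left k ha (hq.pow_dvd_of_dvd_mul_left k hb ?_)
      have : m * (m - 1) * (m - 2) = (m - 1) * (m * (m - 2)) := by ring
      rwa [this] at h

theorem no_big (hn : 3 ≤ n) (hn2 : n < 32768) (c : ℤ) (hc : 32768 ≤ c)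
    (h : c ∣ n ∨ c ∣ n - 1 ∨ c ∣ n - 2) : False := by
  rcases h with h | h | h
  · have := Int.le_of_dvd (by omega) h; omega
  · have := Int.le_of_dvd (by omega) h; omega
  · have := Int.le_of_dvd (by omega) h; omega

theorem Rel.no_prime (R : Rel n u w t k5 k9 k8 N) (hn2 : n < 32768) (q : ℤ) (hq : Prime q)
    (h5 : 5 ≤ q) : ¬ q ∣ u + w := by
  intro h
  have h1 : q ^ 8 ∣ n * (n - 1) * (n - 2) := (pow_dvd_pow_of_dvd h 8).trans R.dvd_n
  have h2 : ¬ q ∣ 2 := fun h => by have := Int.le_of_dvd (by norm_num) h; omega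
  refine no_big R.hn hn2 (q ^ 8) ?_ (prime_pow_split q hq h2 8 n h1)
  calc (32768 : ℤ) ≤ 5 ^ 8 := by norm_num
    _ ≤ q ^ 8 := by gcongr

theorem Rel.no_nine (R : Rel n u w t k5 k9 k8 N) (hn2 : n < 32768) : ¬ (9 : ℤ) ∣ u + w := by
  intro h
  have h1 : (3 : ℤ) ^ 16 ∣ n * (n - 1) * (n - 2) := by
    have := (pow_dvd_pow_of_dvd h 8).trans R.dvd_n
    norm_num at this ⊢
    exact this
  refine no_big R.hn hn2 (3 ^ 16) (by norm_num) (prime_pow_split 3 Int.prime_three (by norm_num) 16 n h1)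

theorem prime_two : Prime (2 : ℤ) := Int.prime_two

theorem Rel.no_four (R : Rel n u w t k5 k9 k8 N) (hn2 : n < 32768) : ¬ (4 : ℤ) ∣ u + w := by
  intro h
  have h3 := R.hn
  -- parities
  have hu2 : ¬ (2 : ℤ) ∣ u := by
    intro h2
    have h4 : (2 : ℤ) ∣ u + w := Dvd.dvd.trans (by norm_num) h
    have h5 : (2 : ℤ) ∣ w := (dvd_add_right h2).mp h4
    have := R.hc.isUnit_of_dvd' h2 h5
    exact prime_two.not_isUnit this
  have hw2 : ¬ (2 : ℤ) ∣ w := by
    intro h2
    have h4 : (2 : ℤ) ∣ u + w := Dvd.dvd.trans (by norm_num) h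
    have h5 : (2 : ℤ) ∣ u := (dvd_add_left h2).mp h4
    exact hu2 h5
  have h15 : (2 : ℤ) ^ 15 ∣ (n - 2) * t := by
    have h5 : (4 : ℤ) ^ 8 ∣ 2 * ((n - 2) * t) := (pow_dvd_pow_of_dvd h 8).trans R.dvd_tau
    have h6 : (2 : ℤ) * 2 ^ 15 ∣ 2 * ((n - 2) * t) := by
      norm_num at h5 ⊢
      exact h5
    exact (mul_dvd_mul_iff_left (by norm_num : (2 : ℤ) ≠ 0)).mp h6
  have hN := R.hN
  have ht := R.ht
  rcases Int.even_or_odd n with he | ho
  · -- n even
    obtain ⟨m, hm⟩ := he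
    have hm' : N = m * (n - 1) := by
      have : 2 * N = 2 * (m * (n - 1)) := by rw [hN, hm]; ring
      exact mul_left_cancel₀ (by norm_num) this
    rcases Int.even_or_odd m with hme | hmo
    · -- n ≡ 0 mod 4
      obtain ⟨m', hm''⟩ := hme
      have h7 : (2 : ℤ) ^ 14 ∣ t := by
        have h8 : n - 2 = 2 * (2 * m' - 1) := by omega
        rw [h8, mul_assoc] at h15
        have h9 : (2 : ℤ) * 2 ^ 14 ∣ 2 * ((2 * m' - 1) * t) := by
          norm_num at h15 ⊢
          exact h15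
        have h10 := (mul_dvd_mul_iff_left (by norm_num : (2 : ℤ) ≠ 0)).mp h9
        exact prime_two.pow_dvd_of_dvd_mul_left 14 (by omega) h10
      have h11 : (2 : ℤ) ∣ t + u - w := by
        have : (2 : ℤ) ∣ t := Dvd.dvd.trans (by norm_num) h7
        omega
      have h12 : (2 : ℤ) ^ 15 ∣ u * w * N := by
        rw [← ht]
        have : (2 : ℤ) ^ 15 = 2 ^ 14 * 2 := by norm_num
        rw [this]
        exact mul_dvd_mul h7 h11
      have h13 : (2 : ℤ) ^ 15 ∣ N := by
        rw [mul_assoc] at h12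
        exact prime_two.pow_dvd_of_dvd_mul_left 15 hw2 (prime_two.pow_dvd_of_dvd_mul_left 15 hu2 h12)
      rw [hm'] at h13
      have h14 : (2 : ℤ) ^ 15 ∣ m := prime_two.pow_dvd_of_dvd_mul_right 15 (by omega) h13
      have := Int.le_of_dvd (by omega) h14
      norm_num at this
      omega
    · -- n ≡ 2 mod 4
      have hNo : ¬ (2 : ℤ) ∣ N := by
        rw [hm']
        intro h8
        rcases prime_two.dvd_or_dvd h8 with h9 | h9
        · obtain ⟨r, hr⟩ := hmo; omega
        · omega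
      have hto : ¬ (2 : ℤ) ∣ t := by
        intro h8
        have h9 : (2 : ℤ) ∣ u * w * N := by rw [← ht]; exact Dvd.dvd.mul_right h8 _
        rcases prime_two.dvd_or_dvd h9 with h10 | h10
        · rcases prime_two.dvd_or_dvd h10 with h11 | h11
          · exact hu2 h11
          · exact hw2 h11
        · exact hNo h10
      have h8 : (2 : ℤ) ^ 15 ∣ n - 2 := prime_two.pow_dvd_of_dvd_mul_right 15 hto h15
      have := Int.le_of_dvd (by omega) h8
      norm_num at this
      omega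
  · -- n odd
    have h8 : ¬ (2 : ℤ) ∣ n - 2 := by obtain ⟨r, hr⟩ := ho; omega
    have h9 : (2 : ℤ) ^ 15 ∣ t := prime_two.pow_dvd_of_dvd_mul_left 15 h8 h15
    have h10 : (2 : ℤ) ^ 15 ∣ u * w * N := by rw [← ht]; exact Dvd.dvd.mul_right h9 _
    rw [mul_assoc] at h10
    have h11 : (2 : ℤ) ^ 15 ∣ N :=
      prime_two.pow_dvd_of_dvd_mul_left 15 hw2 (prime_two.pow_dvd_of_dvd_mul_left 15 hu2 h10)
    have h12 : (2 : ℤ) ^ 15 ∣ n * (n - 1) := by rw [← hN]; exact Dvd.dvd.mul_left h11 _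
    have h13 : (2 : ℤ) ^ 15 ∣ n - 1 :=
      prime_two.pow_dvd_of_dvd_mul_left 15 (by obtain ⟨r, hr⟩ := ho; omega) h12
    have := Int.le_of_dvd (by omega) h13
    norm_num at this
    omega

/-- no square among the triangular numbers in question -/
theorem no_square_aux : ∀ j : Fin 256, 0 < j.val →
    ∃ m ∈ ([16, 9, 5, 7, 11, 13, 17, 19, 23, 29, 31, 41] : List ℕ),
      ∀ r : Fin 41, r.val < m → (r.val * r.val) % m ≠ ((64 * j.val + 1) * (128 * j.val + 1)) % m := by
  decide +kernel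

theorem no_square_two (j : ℤ) (h0 : 0 < j) (h1 : j < 256) (t : ℤ)
    (h : t * t = (64 * j + 1) * (128 * j + 1)) : False := by
  obtain ⟨j', rfl⟩ := Int.eq_ofNat_of_zero_le h0.le
  have h2 := no_square_aux ⟨j', by omega⟩ (by simpa using h0)
  obtain ⟨m, hm, h3⟩ := h2
  have hm0 : 0 < m ∧ m ≤ 41 := by
    clear h3
    revert m
    decide
  have h4 := h3 ⟨t.natAbs % m, lt_of_lt_of_le (Nat.mod_lt _ hm0.1) hm0.2⟩ (Nat.mod_lt _ hm0.1)
  apply h4
  simp only
  rw [← Nat.mul_mod]
  congr 1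
  have h5 : ((t.natAbs * t.natAbs : ℕ) : ℤ) = (((64 * j' + 1) * (128 * j' + 1) : ℕ) : ℤ) := by
    push_cast
    rw [← h]
    simp
  exact_mod_cast h5

theorem not_sq (a s : ℤ) (x : ℤ) (h0 : 0 ≤ a) (h1 : a * a < s) (h2 : s < (a + 1) * (a + 1)) (h : x * x = s) :
    False := by
  have h3 : a < |x| := by
    by_contra h4
    push Not at h4
    have : |x| * |x| ≤ a * a := mul_le_mul h4 h4 (abs_nonneg x) h0
    rw [abs_mul_abs_self] at this
    omega
  have h5 : |x| < a + 1 := by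
    by_contra h4
    push Not at h4
    have : (a + 1) * (a + 1) ≤ |x| * |x| := mul_le_mul h4 h4 (by omega) (abs_nonneg x)
    rw [abs_mul_abs_self] at this
    omega
  omega

theorem Rel.no_b_two (R : Rel n u w t k5 k9 k8 N) (hn2 : n < 32768) (hb : u + w = 2) : False := by
  have hu := R.hu
  have hw := R.hw
  have h3 := R.hn
  have hu1 : u = 1 := by omega
  have hw1 : w = 1 := by omega
  have ht : t * t = N := by
    have := R.ht
    rw [hu1, hw1] at this
    linarith
  have h7 : (2 : ℤ) ^ 7 ∣ (n - 2) * t := by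
    have h5 := R.dvd_tau
    rw [hb] at h5
    have h6 : (2 : ℤ) * 2 ^ 7 ∣ 2 * ((n - 2) * t) := by
      norm_num at h5 ⊢
      exact h5
    exact (mul_dvd_mul_iff_left (by norm_num : (2 : ℤ) ≠ 0)).mp h6
  have hN := R.hN
  rcases Int.even_or_odd n with he | ho
  · obtain ⟨m, hm⟩ := he
    have hm' : N = m * (n - 1) := by
      have : 2 * N = 2 * (m * (n - 1)) := by rw [hN, hm]; ring
      exact mul_left_cancel₀ (by norm_num) this
    rcases Int.even_or_odd m with hme | hmo
    · obtain ⟨m', hm''⟩ := hme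
      have h8 : (2 : ℤ) ^ 6 ∣ t := by
        have h8 : n - 2 = 2 * (2 * m' - 1) := by omega
        rw [h8, mul_assoc] at h7
        have h9 : (2 : ℤ) * 2 ^ 6 ∣ 2 * ((2 * m' - 1) * t) := by
          norm_num at h7 ⊢
          exact h7
        have h10 := (mul_dvd_mul_iff_left (by norm_num : (2 : ℤ) ≠ 0)).mp h9
        exact prime_two.pow_dvd_of_dvd_mul_left 6 (by omega) h10
      obtain ⟨s, hs⟩ := h8
      have h12 : (2 : ℤ) ^ 12 ∣ m * (n - 1) := by
        rw [← hm', ← ht, hs]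
        exact ⟨s * s, by ring⟩
      have h13 : (2 : ℤ) ^ 12 ∣ m := prime_two.pow_dvd_of_dvd_mul_right 12 (by omega) h12
      obtain ⟨c, hc⟩ := h13
      have hnc : n = 8192 * c := by omega
      have h14 : s * s = c * (8192 * c - 1) := by
        have : 4096 * (s * s) = 4096 * (c * (8192 * c - 1)) := by
          have h15 : t * t = m * (n - 1) := by rw [ht, hm']
          rw [hs, hc, hnc] at h15
          linarith
        exact mul_left_cancel₀ (by norm_num) this
      have h15 : c = 1 ∨ c = 2 ∨ c = 3 := by omega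
      rcases h15 with rfl | rfl | rfl
      · exact not_sq 90 _ s (by norm_num) (by norm_num) (by norm_num) h14
      · exact not_sq 181 _ s (by norm_num) (by norm_num) (by norm_num) h14
      · exact not_sq 271 _ s (by norm_num) (by norm_num) (by norm_num) h14
    · have hNo : ¬ (2 : ℤ) ∣ N := by
        rw [hm']
        intro h8
        rcases prime_two.dvd_or_dvd h8 with h9 | h9
        · obtain ⟨r, hr⟩ := hmo; omega
        · omega
      have hto : ¬ (2 : ℤ) ∣ t := by
        intro h8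
        exact hNo (by rw [← ht]; exact Dvd.dvd.mul_right h8 _)
      have h8 : (2 : ℤ) ^ 7 ∣ n - 2 := prime_two.pow_dvd_of_dvd_mul_right 7 hto h7
      obtain ⟨j, hj⟩ := h8
      have hnj : n = 128 * j + 2 := by omega
      have hmj : m = 64 * j + 1 := by omega
      apply no_square_two j (by omega) (by omega) t
      rw [ht, hm', hnj, hmj]
      ring
  · have h8 : ¬ (2 : ℤ) ∣ n - 2 := by obtain ⟨r, hr⟩ := ho; omega
    have h9 : (2 : ℤ) ^ 7 ∣ t := prime_two.pow_dvd_of_dvd_mul_left 7 h8 h7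
    obtain ⟨s, hs⟩ := h9
    have h12 : (2 : ℤ) ^ 15 ∣ n * (n - 1) := by
      rw [← hN, ← ht, hs]
      exact ⟨s * s, by ring⟩
    have h13 : (2 : ℤ) ^ 15 ∣ n - 1 :=
      prime_two.pow_dvd_of_dvd_mul_left 15 (by obtain ⟨r, hr⟩ := ho; omega) h12
    have := Int.le_of_dvd (by omega) h13
    norm_num at this
    omega

theorem six_aux : ∀ m : Fin 5, ∀ r : Fin 3, 0 < m.val →
    ((6561 * m.val + r.val) * (6561 * m.val + r.val - 1) * (6561 * m.val + r.val - 2)) % 256 ≠ 0 := by
  decide +kernel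

theorem Rel.no_b_six (R : Rel n u w t k5 k9 k8 N) (hn2 : n < 32768) (hb : u + w = 6) : False := by
  have h3 := R.hn
  have h := R.dvd_n
  rw [hb] at h
  have h1 : (3 : ℤ) ^ 8 ∣ n * (n - 1) * (n - 2) := Dvd.dvd.trans (by norm_num) h
  have h2 : (256 : ℤ) ∣ n * (n - 1) * (n - 2) := Dvd.dvd.trans (by norm_num) h
  have h4 := prime_pow_split 3 Int.prime_three (by norm_num) 8 n h1
  have h5 : ∃ m r : ℕ, 0 < m ∧ m < 5 ∧ r < 3 ∧ n = ((6561 * m + r : ℕ) : ℤ) := by
    rcases h4 with ⟨c, hc⟩ | ⟨c, hc⟩ | ⟨c, hc⟩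
    · refine ⟨c.toNat, 0, ?_, ?_, ?_, ?_⟩ <;> norm_num at hc <;> push_cast <;> omega
    · refine ⟨c.toNat, 1, ?_, ?_, ?_, ?_⟩ <;> norm_num at hc <;> push_cast <;> omega
    · refine ⟨c.toNat, 2, ?_, ?_, ?_, ?_⟩ <;> norm_num at hc <;> push_cast <;> omega
  obtain ⟨m, r, hm0, hm5, hr3, hn⟩ := h5
  have h6 := six_aux ⟨m, hm5⟩ ⟨r, hr3⟩ hm0
  apply h6
  simp only
  have h7 : (((6561 * m + r) * (6561 * m + r - 1) * (6561 * m + r - 2) : ℕ) : ℤ)
      = n * (n - 1) * (n - 2) := by
    have h8 : 2 ≤ 6561 * m + r := by omega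
    rw [hn, Nat.cast_mul, Nat.cast_mul, Nat.cast_sub (by omega), Nat.cast_sub h8]
    push_cast
    ring
  rw [← h7] at h2
  have h9 : (256 : ℕ) ∣ (6561 * m + r) * (6561 * m + r - 1) * (6561 * m + r - 2) := by
    exact_mod_cast h2
  exact Nat.mod_eq_zero_of_dvd h9

theorem prime_three : Prime (3 : ℤ) := Int.prime_three

/-- the bracket `u (n-3)(n-4) - 36 w` for `u + w = 3` -/
theorem Rel.b_three (R : Rel n u w t k5 k9 k8 N) (hn2 : n < 32768) (hb : u + w = 3) :
    n = 19683 := by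
  have hu := R.hu
  have hw := R.hw
  have h3 := R.hn
  have hN := R.hN
  have ht := R.ht
  have huw : (u = 1 ∧ w = 2) ∨ (u = 2 ∧ w = 1) := by omega
  have hu3 : ¬ (3 : ℤ) ∣ u := by omega
  have hw3 : ¬ (3 : ℤ) ∣ w := by omega
  have huw2 : u * w = 2 := by rcases huw with ⟨h1, h2⟩ | ⟨h1, h2⟩ <;> rw [h1, h2] <;> norm_num
  have ht2 : t * (t + u - w) = n * (n - 1) := by rw [ht, huw2, hN]
  -- the strong divisibility
  have h10 : (3 : ℤ) ^ 10 ∣ t * (n - 2) * (u * ((n - 3) * (n - 4)) - 36 * w) := by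
    have h5 := R.dvd_tau'
    rw [hb] at h5
    have h6 : (3 : ℤ) ^ 10 ∣ u ^ 8 * (t * (n - 2) * (u * ((n - 3) * (n - 4)) - 36 * w)) := by
      rw [← h5]
      exact ⟨2 * (10 * 3 * k5 - u * k9), by ring⟩
    exact prime_three.pow_dvd_of_dvd_mul_left 10 (fun h => hu3 (prime_three.dvd_of_dvd_pow h)) h6
  have h8 : (3 : ℤ) ^ 8 ∣ (n - 2) * t := by
    have h5 := R.dvd_tau
    rw [hb] at h5
    exact prime_three.pow_dvd_of_dvd_mul_left 8 (by norm_num) h5
  by_cases hm2 : (3 : ℤ) ∣ n - 2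
  · -- impossible
    exfalso
    have hn0 : ¬ (3 : ℤ) ∣ n := by omega
    have hn1 : ¬ (3 : ℤ) ∣ n - 1 := by omega
    have ht3 : ¬ (3 : ℤ) ∣ t := by
      intro h
      have h5 : (3 : ℤ) ∣ n * (n - 1) := by rw [← ht2]; exact Dvd.dvd.mul_right h _
      rcases prime_three.dvd_or_dvd h5 with h6 | h6
      · exact hn0 h6
      · exact hn1 h6
    have hbr : ¬ (3 : ℤ) ∣ (u * ((n - 3) * (n - 4)) - 36 * w) := by
      intro h
      have h5 : (3 : ℤ) ∣ u * ((n - 3) * (n - 4)) := by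
        have h6 : (3 : ℤ) ∣ 36 * w := Dvd.dvd.mul_right (by norm_num) _
        have := dvd_add h h6
        rwa [sub_add_cancel] at this
      rcases prime_three.dvd_or_dvd h5 with h6 | h6
      · exact hu3 h6
      · rcases prime_three.dvd_or_dvd h6 with h7 | h7
        · omega
        · omega
    have h11 := prime_three.pow_dvd_of_dvd_mul_right 10 hbr h10
    have h12 := prime_three.pow_dvd_of_dvd_mul_left 10 ht3 h11
    have := Int.le_of_dvd (by omega) h12
    norm_num at this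
    omega
  · have h8t : (3 : ℤ) ^ 8 ∣ t := prime_three.pow_dvd_of_dvd_mul_left 8 hm2 h8
    have h9 : (3 : ℤ) ^ 8 ∣ n * (n - 1) := by rw [← ht2]; exact Dvd.dvd.mul_right h8t _
    have hsplit : ∀ k : ℕ, (3 : ℤ) ^ k ∣ n * (n - 1) → (3 : ℤ) ^ k ∣ n ∨ (3 : ℤ) ^ k ∣ n - 1 := by
      intro k h
      by_cases h0 : (3 : ℤ) ∣ n
      · left
        exact prime_three.pow_dvd_of_dvd_mul_right k (by omega) h
      · right
        exact prime_three.pow_dvd_of_dvd_mul_left k h0 h
    have h9' := hsplit 8 h9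
    -- the bracket is three times a unit modulo three
    have hbr : ∃ c : ℤ, u * ((n - 3) * (n - 4)) - 36 * w = 3 * c ∧ ¬ (3 : ℤ) ∣ c := by
      rcases h9' with h | h
      · have h9n : (9 : ℤ) ∣ n := Dvd.dvd.trans (by norm_num) h
        obtain ⟨m, hm⟩ := h9n
        refine ⟨u * ((3 * m - 1) * (9 * m - 4)) - 12 * w, by rw [hm]; ring, ?_⟩
        intro hc
        have h5 : (3 : ℤ) ∣ u * ((3 * m - 1) * (9 * m - 4)) := by
          have h6 : (3 : ℤ) ∣ 12 * w := Dvd.dvd.mul_right (by norm_num) _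
          have := dvd_add hc h6
          rwa [sub_add_cancel] at this
        rcases prime_three.dvd_or_dvd h5 with h6 | h6
        · exact hu3 h6
        · rcases prime_three.dvd_or_dvd h6 with h7 | h7 <;> omega
      · have h9n : (9 : ℤ) ∣ n - 1 := Dvd.dvd.trans (by norm_num) h
        obtain ⟨m, hm⟩ := h9n
        have hm' : n = 9 * m + 1 := by omega
        refine ⟨u * ((9 * m - 2) * (3 * m - 1)) - 12 * w, by rw [hm']; ring, ?_⟩
        intro hc
        have h5 : (3 : ℤ) ∣ u * ((9 * m - 2) * (3 * m - 1)) := by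
          have h6 : (3 : ℤ) ∣ 12 * w := Dvd.dvd.mul_right (by norm_num) _
          have := dvd_add hc h6
          rwa [sub_add_cancel] at this
        rcases prime_three.dvd_or_dvd h5 with h6 | h6
        · exact hu3 h6
        · rcases prime_three.dvd_or_dvd h6 with h7 | h7 <;> omega
    obtain ⟨c, hc, hc3⟩ := hbr
    have h9t : (3 : ℤ) ^ 9 ∣ t := by
      rw [hc] at h10
      have h11 : (3 : ℤ) * 3 ^ 9 ∣ 3 * (t * (n - 2) * c) := by
        have h12 : t * (n - 2) * (3 * c) = 3 * (t * (n - 2) * c) := by ring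
        rw [h12] at h10
        norm_num at h10 ⊢
        exact h10
      have h12 := (mul_dvd_mul_iff_left (by norm_num : (3 : ℤ) ≠ 0)).mp h11
      have h13 := prime_three.pow_dvd_of_dvd_mul_right 9 hc3 h12
      exact prime_three.pow_dvd_of_dvd_mul_right 9 hm2 h13
    have h9n : (3 : ℤ) ^ 9 ∣ n * (n - 1) := by rw [← ht2]; exact Dvd.dvd.mul_right h9t _
    rcases hsplit 9 h9n with h | h
    · obtain ⟨d, hd⟩ := h
      norm_num at hd
      omega
    · exfalso
      obtain ⟨d, hd⟩ := h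
      norm_num at hd
      have hn' : n = 19684 := by omega
      obtain ⟨s, hs⟩ := h9t
      norm_num at hs
      rw [hn', hs] at ht2
      have h5 := R.h5
      rcases huw with ⟨h1, h2⟩ | ⟨h1, h2⟩
      · rw [h1, h2] at ht2
        have hs2 : s * (19683 * s - 1) = 19684 := by linarith
        have hs3 : s = -1 := by
          have h6 : -2 < s := by nlinarith
          have h7 : s < 2 := by nlinarith
          interval_cases s <;> omega
        rw [h1, h2, hn', hs, hs3] at h5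
        norm_num at h5
        omega
      · rw [h1, h2] at ht2
        have hs2 : s * (19683 * s + 1) = 19684 := by linarith
        have hs3 : s = 1 := by
          have h6 : -2 < s := by nlinarith
          have h7 : s < 2 := by nlinarith
          interval_cases s <;> omega
        rw [h1, h2, hn', hs, hs3] at h5
        norm_num at h5
        omega

theorem Rel.main (R : Rel n u w t k5 k9 k8 N) (hn2 : n < 32768) : n = 19683 ∧ u + w = 3 := by
  have hu := R.hu
  have hw := R.hw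
  have h3 := R.hn
  have hle : u + w < 50 := by
    by_contra h
    push Not at h
    have h1 := Int.le_of_dvd (by
      have : 0 < n * (n - 1) := by nlinarith
      nlinarith) R.dvd_n
    have h2 : (50 : ℤ) ^ 8 ≤ (u + w) ^ 8 := by gcongr
    have h4 : n * (n - 1) * (n - 2) ≤ 32768 * 32768 * 32768 := by
      have h5 : n * (n - 1) ≤ 32768 * 32768 := mul_le_mul (by omega) (by omega) (by omega) (by omega)
      exact mul_le_mul h5 (by omega) (by omega) (by norm_num)
    norm_num at h2 h4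
    omega
  have p5 := R.no_prime hn2 5 (by norm_num [Int.prime_iff_natAbs_prime]) (by norm_num)
  have p7 := R.no_prime hn2 7 (by norm_num [Int.prime_iff_natAbs_prime]) (by norm_num)
  have p11 := R.no_prime hn2 11 (by norm_num [Int.prime_iff_natAbs_prime]) (by norm_num)
  have p13 := R.no_prime hn2 13 (by norm_num [Int.prime_iff_natAbs_prime]) (by norm_num)
  have p17 := R.no_prime hn2 17 (by norm_num [Int.prime_iff_natAbs_prime]) (by norm_num)
  have p19 := R.no_prime hn2 19 (by norm_num [Int.prime_iff_natAbs_prime]) (by norm_num)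
  have p23 := R.no_prime hn2 23 (by norm_num [Int.prime_iff_natAbs_prime]) (by norm_num)
  have p29 := R.no_prime hn2 29 (by norm_num [Int.prime_iff_natAbs_prime]) (by norm_num)
  have p31 := R.no_prime hn2 31 (by norm_num [Int.prime_iff_natAbs_prime]) (by norm_num)
  have p37 := R.no_prime hn2 37 (by norm_num [Int.prime_iff_natAbs_prime]) (by norm_num)
  have p41 := R.no_prime hn2 41 (by norm_num [Int.prime_iff_natAbs_prime]) (by norm_num)
  have p43 := R.no_prime hn2 43 (by norm_num [Int.prime_iff_natAbs_prime]) (by norm_num)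
  have p47 := R.no_prime hn2 47 (by norm_num [Int.prime_iff_natAbs_prime]) (by norm_num)
  have p4 := R.no_four hn2
  have p9 := R.no_nine hn2
  have hb2 : u + w ≠ 2 := fun h => R.no_b_two hn2 h
  have hb6 : u + w ≠ 6 := fun h => R.no_b_six hn2 h
  have hb : u + w = 3 := by
    generalize hB : u + w = b at *
    have hb0 : 1 < b := by omega
    clear hB R hu hw
    interval_cases b <;> first | rfl | (exfalso; omega)
  exact ⟨R.b_three hn2 hb, hb⟩


section Count

variable {V : Type} [Fintype V] [DecidableEq V]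

/-- number of embeddings sending every pair of `s` to a pair satisfying `P` -/
noncomputable def cnt (P : Sym2 V → Prop) [DecidablePred P] (k : ℕ) (s : Finset (Sym2 (Fin k))) : ℕ :=
  (univ.filter (fun φ : Fin k ↪ V => ∀ e ∈ s, P (e.map φ))).card

theorem cnt_expand (P : Sym2 V → Prop) [DecidablePred P] (Y : Sym2 V → ℝ) (p : ℝ)
    (hY : ∀ e : Sym2 V, ¬ e.IsDiag → Y e = (if P e then 1 else 0) - p)
    (k : ℕ) (s : Finset (Sym2 (Fin k))) (hs : NoDiag s) :
    (cnt P k s : ℝ) = ∑ t ∈ s.powerset, p ^ (s.card - t.card) * T Y k t := by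
  have h1 : (cnt P k s : ℝ) = ∑ φ : Fin k ↪ V, ∏ e ∈ s, (if P (e.map φ) then (1 : ℝ) else 0) := by
    unfold cnt
    rw [Finset.card_filter]
    push_cast
    refine Finset.sum_congr rfl fun φ _ => ?_
    by_cases h : ∀ e ∈ s, P (e.map φ)
    · rw [if_pos h]
      symm
      apply Finset.prod_eq_one
      intro e he
      rw [if_pos (h e he)]
    · rw [if_neg h]
      push Not at h
      obtain ⟨e, he, hP⟩ := h
      symm
      apply Finset.prod_eq_zero he
      rw [if_neg hP]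
  rw [h1]
  have h2 : ∀ φ : Fin k ↪ V, ∏ e ∈ s, (if P (e.map φ) then (1 : ℝ) else 0)
      = ∑ t ∈ s.powerset, p ^ (s.card - t.card) * ∏ e ∈ t, Y (e.map φ) := by
    intro φ
    have h3 : ∀ e ∈ s, (if P (e.map φ) then (1 : ℝ) else 0) = Y (e.map φ) + p := by
      intro e he
      rw [hY]
      · ring
      · rw [Sym2.isDiag_map φ.injective]; exact hs e he
    rw [Finset.prod_congr rfl h3, Finset.prod_add]
    refine Finset.sum_congr rfl fun t ht => ?_
    rw [Finset.prod_const, Finset.card_sdiff_of_subset (Finset.mem_powerset.mp ht), mul_comm]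
  rw [Finset.sum_congr rfl (fun φ _ => h2 φ), Finset.sum_comm]
  refine Finset.sum_congr rfl fun t _ => ?_
  unfold T
  rw [Finset.mul_sum]

theorem cnt_two (P : Sym2 V → Prop) [DecidablePred P] (Y : Sym2 V → ℝ) (p : ℝ)
    (hY : ∀ e : Sym2 V, ¬ e.IsDiag → Y e = (if P e then 1 else 0) - p) :
    (cnt P 2 {s(0, 1)} : ℝ) = p * ((Fintype.card V : ℝ) * ((Fintype.card V : ℝ) - 1)) + E2 Y := by
  rw [cnt_expand P Y p hY 2 {s(0, 1)} (by unfold NoDiag; decide)]
  have h : ({s(0, 1)} : Finset (Sym2 (Fin 2))).powerset = {∅, {s(0, 1)}} := by decide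
  rw [h, Finset.sum_pair (by decide), T2_empty]
  unfold E2
  simp

/-- all pairs -/
abbrev K3 : Finset (Sym2 (Fin 3)) := univ.filter (fun e => ¬ e.IsDiag)

theorem cnt_three {Y : Sym2 V → ℝ} {p : ℝ} (S : Setting Y p) (P : Sym2 V → Prop)
    [DecidablePred P]
    (hY : ∀ e : Sym2 V, ¬ e.IsDiag → Y e = (if P e then 1 else 0) - p) :
    (cnt P 3 K3 : ℝ) = p ^ 3 * ((Fintype.card V : ℝ) * ((Fintype.card V : ℝ) - 1) *
      ((Fintype.card V : ℝ) - 2)) + 3 * p ^ 2 * (((Fintype.card V : ℝ) - 2) * E2 Y) := by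
  rw [cnt_expand P Y p hY 3 K3 (by unfold NoDiag; decide)]
  have hc : K3.card = 3 := by decide
  have h1 : ∀ t ∈ K3.powerset, p ^ (K3.card - t.card) * T Y 3 t
      = p ^ (K3.card - t.card) * (if t.card = 0 then ((Fintype.card V : ℝ) *
        ((Fintype.card V : ℝ) - 1) * ((Fintype.card V : ℝ) - 2)) else if t.card = 1 then
        (((Fintype.card V : ℝ) - 2) * E2 Y) else if t.card = 3 ∧ False then 0 else 0) := by
    intro t ht
    rw [Finset.mem_powerset] at ht
    have hn : NoDiag t := fun e he => (Finset.mem_filter.mp (ht he)).2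
    congr 1
    split_ifs with h0 h1 h2
    · rw [Finset.card_eq_zero] at h0
      rw [h0, T3_empty]
    · exact T3_one Y t hn h1
    · exact absurd h2.2 id
    · exact T3_two S t hn (by omega)
  rw [Finset.sum_congr rfl h1, sum_powerset_three K3 p _ _ 0 (fun _ => False), hc]
  push_cast
  ring

abbrev K5 : Finset (Sym2 (Fin 5)) := univ.filter (fun e => ¬ e.IsDiag)
abbrev K9 : Finset (Sym2 (Fin 5)) := K5.erase s(0, 1)
abbrev K8 : Finset (Sym2 (Fin 5)) := (K5.erase s(0, 1)).erase s(0, 2)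

theorem cnt_five {Y : Sym2 V → ℝ} {p : ℝ} (S : Setting Y p) (P : Sym2 V → Prop)
    [DecidablePred P]
    (hY : ∀ e : Sym2 V, ¬ e.IsDiag → Y e = (if P e then 1 else 0) - p)
    (s : Finset (Sym2 (Fin 5))) (hs : NoDiag s) :
    (cnt P 5 s : ℝ) = p ^ s.card * ((Fintype.card V : ℝ) * ((Fintype.card V : ℝ) - 1) *
      ((Fintype.card V : ℝ) - 2) * ((Fintype.card V : ℝ) - 3) * ((Fintype.card V : ℝ) - 4))
      + s.card * p ^ (s.card - 1) * (((Fintype.card V : ℝ) - 4) * ((Fintype.card V : ℝ) - 3) *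
        ((Fintype.card V : ℝ) - 2) * E2 Y)
      + ((s.powersetCard 3).filter Covers).card * p ^ (s.card - 3) *
        (- (4 * p * (1 - p) * ((Fintype.card V : ℝ) - 2) * E2 Y)) := by
  rw [cnt_expand P Y p hY 5 s hs]
  rw [← sum_powerset_three s p _ _ _ Covers]
  refine Finset.sum_congr rfl fun t ht => ?_
  rw [Finset.mem_powerset] at ht
  rw [T5_eq S t (fun e he => hs e (ht he))]
  rfl

end Count

section Final

open Classical

/-- The pair `(F, p)` is exceptional: `F` is a graph on `v ≥ 3` vertices, `0 < p < 1`, and for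
every graph `H` on 3 or 4 vertices without isolated vertices and every connected graph `H` on 5
vertices the sum over all embeddings of the vertex set of `H` into that of `F` of the product of
`x_e - p` over the edges of `H` vanishes.  (This is word for word the condition of the frozen
statement S10943.) -/
def Exceptional (v : ℕ) (F : SimpleGraph (Fin v)) (p : ℝ) : Prop :=
  3 ≤ v ∧ 0 < p ∧ p < 1 ∧
    ∀ (k : ℕ) (H : SimpleGraph (Fin k)),
      (((k = 3 ∨ k = 4) ∧ (∀ w : Fin k, ∃ u : Fin k, H.Adj w u)) ∨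
        (k = 5 ∧ H.Connected)) →
      (∑ φ : Fin k ↪ Fin v,
        ∏ i : Fin k, ∏ j : Fin k,
          (if i < j ∧ H.Adj i j then
            ((if F.Adj (φ i) (φ j) then (1 : ℝ) else 0) - p)
          else 1)) = 0

/-- centred weights -/
noncomputable def YF {v : ℕ} (F : SimpleGraph (Fin v)) (p : ℝ) (e : Sym2 (Fin v)) : ℝ :=
  if e.IsDiag then 0 else (if e ∈ F.edgeSet then 1 else 0) - p

theorem bridge {v k : ℕ} (F : SimpleGraph (Fin v)) (p : ℝ) (s : Finset (Sym2 (Fin k)))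
    (hs : NoDiag s) (H : SimpleGraph (Fin k)) (hH : ∀ i j, H.Adj i j ↔ s(i, j) ∈ s) :
    (∑ φ : Fin k ↪ Fin v, ∏ i : Fin k, ∏ j : Fin k,
      (if i < j ∧ H.Adj i j then
        ((if F.Adj (φ i) (φ j) then (1 : ℝ) else 0) - p) else 1)) = T (YF F p) k s := by
  unfold T
  refine Finset.sum_congr rfl fun φ _ => ?_
  rw [← prod_pairs s hs (fun e => YF F p (e.map φ)) (fun i j => i < j ∧ H.Adj i j)]
  · refine Finset.prod_congr rfl fun i _ => Finset.prod_congr rfl fun j _ => ?_
    split_ifs with h h2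
    · have hne : φ i ≠ φ j := fun h3 => (ne_of_lt h.1) (φ.injective h3)
      unfold YF
      rw [Sym2.map_mk, if_neg (by rw [Sym2.mk_isDiag_iff]; exact hne), if_pos]
      rw [SimpleGraph.mem_edgeSet]; exact h2
    · have hne : φ i ≠ φ j := fun h3 => (ne_of_lt h.1) (φ.injective h3)
      unfold YF
      rw [Sym2.map_mk, if_neg (by rw [Sym2.mk_isDiag_iff]; exact hne), if_neg]
      rw [SimpleGraph.mem_edgeSet]; exact h2
    · rfl
  · intro i j
    rw [hH]

theorem adj_iff {k : ℕ} (s : Finset (Sym2 (Fin k))) (hs : NoDiag s) (i j : Fin k) :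
    (SimpleGraph.fromEdgeSet (s : Set (Sym2 (Fin k)))).Adj i j ↔ s(i, j) ∈ s := by
  rw [SimpleGraph.fromEdgeSet_adj]
  constructor
  · rintro ⟨h1, _⟩
    exact_mod_cast h1
  · intro h
    refine ⟨by exact_mod_cast h, ?_⟩
    intro h2
    exact hs _ h (by rw [h2]; simp)

theorem YF_eq {v : ℕ} (F : SimpleGraph (Fin v)) (p : ℝ) (e : Sym2 (Fin v)) (he : ¬ e.IsDiag) :
    YF F p e = (if e ∈ F.edgeSet then 1 else 0) - p := by
  unfold YF
  rw [if_neg he]

theorem covers_adj {k : ℕ} (s : Finset (Sym2 (Fin k))) (hs : NoDiag s) (hc : Covers s) :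
    ∀ w : Fin k, ∃ u : Fin k, (SimpleGraph.fromEdgeSet (s : Set (Sym2 (Fin k)))).Adj w u := by
  intro w
  obtain ⟨e, he, hw⟩ := hc w
  obtain ⟨u, rfl⟩ := Sym2.mem_iff_exists.mp hw
  refine ⟨u, ?_⟩
  rw [SimpleGraph.fromEdgeSet_adj]
  refine ⟨by simpa using he, ?_⟩
  intro h
  exact hs _ he (by rw [h]; simp)

theorem setting_of_exceptional {v : ℕ} {F : SimpleGraph (Fin v)} {p : ℝ}
    (h : Exceptional v F p) : Setting (YF F p) p where
  diag := by intro a; simp [YF]
  quad := by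
    intro e he
    rw [YF_eq F p e he]
    split_ifs <;> ring
  v3 := by
    intro s hs hc
    rw [← bridge F p s hs _ (adj_iff s hs)]
    exact h.2.2.2 3 _ (Or.inl ⟨Or.inl rfl, covers_adj s hs hc⟩)
  v4 := by
    intro s hs hc
    rw [← bridge F p s hs _ (adj_iff s hs)]
    exact h.2.2.2 4 _ (Or.inl ⟨Or.inr rfl, covers_adj s hs hc⟩)
  v5 := by
    intro s hs hc
    rw [← bridge F p s hs _ (adj_iff s hs)]
    exact h.2.2.2 5 _ (Or.inr ⟨rfl, hc⟩)

/-- the data extracted from an exceptional pair -/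
theorem extract {v : ℕ} {F : SimpleGraph (Fin v)} {p : ℝ} (h : Exceptional v F p) :
    ∃ (T : ℝ) (e k3 k5 k9 k8 : ℕ),
      (2 * e : ℝ) = p * ((v : ℝ) * ((v : ℝ) - 1)) + T ∧
      T ^ 2 = 2 * (1 - 2 * p) * T + 2 * p * (1 - p) * ((v : ℝ) * ((v : ℝ) - 1)) ∧
      (k3 : ℝ) = p ^ 3 * ((v : ℝ) * ((v : ℝ) - 1) * ((v : ℝ) - 2))
        + 3 * p ^ 2 * (((v : ℝ) - 2) * T) ∧
      (120 * k5 : ℝ) = p ^ 10 * ((v : ℝ) * ((v : ℝ) - 1) * ((v : ℝ) - 2) * ((v : ℝ) - 3)
        * ((v : ℝ) - 4)) + 10 * p ^ 9 * (((v : ℝ) - 4) * ((v : ℝ) - 3) * ((v : ℝ) - 2) * T)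
        + 30 * p ^ 7 * (- (4 * p * (1 - p) * ((v : ℝ) - 2) * T)) ∧
      (12 * k9 : ℝ) = p ^ 9 * ((v : ℝ) * ((v : ℝ) - 1) * ((v : ℝ) - 2) * ((v : ℝ) - 3)
        * ((v : ℝ) - 4)) + 9 * p ^ 8 * (((v : ℝ) - 4) * ((v : ℝ) - 3) * ((v : ℝ) - 2) * T)
        + 21 * p ^ 6 * (- (4 * p * (1 - p) * ((v : ℝ) - 2) * T)) ∧
      (4 * k8 : ℝ) = p ^ 8 * ((v : ℝ) * ((v : ℝ) - 1) * ((v : ℝ) - 2) * ((v : ℝ) - 3)
        * ((v : ℝ) - 4)) + 8 * p ^ 7 * (((v : ℝ) - 4) * ((v : ℝ) - 3) * ((v : ℝ) - 2) * T)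
        + 13 * p ^ 5 * (- (4 * p * (1 - p) * ((v : ℝ) - 2) * T)) := by
  have S := setting_of_exceptional h
  have hY := YF_eq F p
  set P : Sym2 (Fin v) → Prop := fun e => e ∈ F.edgeSet with hP
  have c2 := cnt_two P (YF F p) p hY
  have c3 := cnt_three S P hY
  have c5 := cnt_five S P hY K5 (by unfold NoDiag; decide)
  have c9 := cnt_five S P hY K9 (by unfold NoDiag; decide)
  have c8 := cnt_five S P hY K8 (by unfold NoDiag; decide)
  have q := quad_rel S
  have d2 : 2 ∣ cnt P 2 {s(0, 1)} := by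
    have := dvd_count 2 {s(0, 1)} P
    have h2 : (univ.filter (fun σ : Equiv.Perm (Fin 2) =>
      ({s(0, 1)} : Finset (Sym2 (Fin 2))).image (Sym2.map σ) = {s(0, 1)})).card = 2 := by
      decide +kernel
    rwa [h2] at this
  have d5 : 120 ∣ cnt P 5 K5 := by
    have := dvd_count 5 K5 P
    have h2 : (univ.filter (fun σ : Equiv.Perm (Fin 5) => K5.image (Sym2.map σ) = K5)).card
      = 120 := by
      decide +kernel
    rwa [h2] at this
  have d9 : 12 ∣ cnt P 5 K9 := by
    have := dvd_count 5 K9 P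
    have h2 : (univ.filter (fun σ : Equiv.Perm (Fin 5) => K9.image (Sym2.map σ) = K9)).card
      = 12 := by
      decide +kernel
    rwa [h2] at this
  have d8 : 4 ∣ cnt P 5 K8 := by
    have := dvd_count 5 K8 P
    have h2 : (univ.filter (fun σ : Equiv.Perm (Fin 5) => K8.image (Sym2.map σ) = K8)).card
      = 4 := by
      decide +kernel
    rwa [h2] at this
  have m5 : ((K5.powersetCard 3).filter Covers).card = 30 := by decide +kernel
  have m9 : ((K9.powersetCard 3).filter Covers).card = 21 := by decide +kernel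
  have m8 : ((K8.powersetCard 3).filter Covers).card = 13 := by decide +kernel
  have n5 : K5.card = 10 := by decide
  have n9 : K9.card = 9 := by decide
  have n8 : K8.card = 8 := by decide
  rw [m5, n5] at c5
  rw [m9, n9] at c9
  rw [m8, n8] at c8
  obtain ⟨e, he⟩ := d2
  obtain ⟨k5, hk5⟩ := d5
  obtain ⟨k9, hk9⟩ := d9
  obtain ⟨k8, hk8⟩ := d8
  rw [he] at c2
  rw [hk5] at c5
  rw [hk9] at c9
  rw [hk8] at c8
  rw [Fintype.card_fin] at c2 c3 c5 c9 c8 q
  push_cast at c2 c5 c9 c8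
  refine ⟨E2 (YF F p), e, cnt P 3 K3, k5, k9, k8, ?_, ?_, ?_, ?_, ?_, ?_⟩
  · exact c2
  · exact q
  · exact c3
  · linarith
  · linarith
  · linarith

/-- `p` is rational -/
theorem rational_of {v : ℕ} (hv : 3 ≤ v) {p T : ℝ} (hp0 : 0 < p) (hp1 : p < 1) {e k3 : ℕ}
    (h1 : (2 * e : ℝ) = p * ((v : ℝ) * ((v : ℝ) - 1)) + T)
    (h2 : T ^ 2 = 2 * (1 - 2 * p) * T + 2 * p * (1 - p) * ((v : ℝ) * ((v : ℝ) - 1)))
    (h3 : (k3 : ℝ) = p ^ 3 * ((v : ℝ) * ((v : ℝ) - 1) * ((v : ℝ) - 2))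
        + 3 * p ^ 2 * (((v : ℝ) - 2) * T)) :
    ∃ q : ℚ, (q : ℝ) = p := by
  set M : ℝ := (v : ℝ) * ((v : ℝ) - 1) with hM
  have hv' : (3 : ℝ) ≤ v := by exact_mod_cast hv
  have hM6 : 6 ≤ M := by rw [hM]; nlinarith
  set E : ℝ := 2 * e with hE
  have hT : T = E - p * M := by linarith
  rw [hT] at h2 h3
  have hE0 : E ≠ 0 := by
    intro h0
    rw [h0] at h2
    have h4 : p ^ 2 * (M * (M - 2)) = 0 := by linear_combination h2
    have h5 : 0 < p ^ 2 * (M * (M - 2)) := by
      apply mul_pos (by positivity)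
      apply mul_pos (by linarith) (by linarith)
    linarith
  have hEM : E ≠ M := by
    intro h0
    rw [h0] at h2
    have h4 : (1 - p) ^ 2 * (M * (M - 2)) = 0 := by linear_combination h2
    have h5 : 0 < (1 - p) ^ 2 * (M * (M - 2)) := by
      have : 0 < 1 - p := by linarith
      apply mul_pos (by positivity)
      apply mul_pos (by linarith) (by linarith)
    linarith
  have hkey : (k3 : ℝ) * (M * (M - 2)) = ((v : ℝ) - 2) * (E * (E * (E - 2) + 4 * p * (E - M))) := by
    have hv3 : (v : ℝ) * ((v : ℝ) - 1) * ((v : ℝ) - 2) = M * ((v : ℝ) - 2) := by rw [hM]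
    rw [hv3] at h3
    rw [h3]
    linear_combination ((v : ℝ) - 2) * (3 * E - 2 * p * M - 4 * E) * h2
  have hv2 : (v : ℝ) - 2 ≠ 0 := by
    have : 0 < (v : ℝ) - 2 := by linarith
    exact this.ne'
  refine ⟨((k3 : ℚ) * (((v : ℚ) * ((v : ℚ) - 1)) * (((v : ℚ) * ((v : ℚ) - 1)) - 2))
    / (((v : ℚ) - 2) * (2 * e)) - (2 * e) * (2 * e - 2)) / (4 * (2 * e - (v : ℚ) * ((v : ℚ) - 1))), ?_⟩
  push_cast
  rw [← hM, ← hE]
  have hEM' : E - M ≠ 0 := sub_ne_zero.mpr hEM
  field_simp
  linear_combination hkey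

/-- the integer relations of an exceptional pair -/
theorem rel_of_exceptional {v : ℕ} {F : SimpleGraph (Fin v)} {p : ℝ} (h : Exceptional v F p) :
    ∃ a b : ℕ, 0 < a ∧ a < b ∧ a.Coprime b ∧ p = (a : ℝ) / b ∧
      ∃ t k5 k9 k8 N : ℤ, Rel (v : ℤ) (a : ℤ) ((b : ℤ) - a) t k5 k9 k8 N := by
  obtain ⟨T, e, k3, k5, k9, k8, h1, h2, h3, h5, h9, h8⟩ := extract h
  obtain ⟨hv, hp0, hp1, _⟩ := h
  obtain ⟨q, hq⟩ := rational_of hv hp0 hp1 h1 h2 h3
  have hq0 : 0 < q := by
    have : (0 : ℝ) < (q : ℝ) := by rw [hq]; exact hp0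
    exact_mod_cast this
  have hq1 : q < 1 := by
    have : (q : ℝ) < 1 := by rw [hq]; exact hp1
    exact_mod_cast this
  set a : ℕ := q.num.toNat with ha
  set b : ℕ := q.den with hb
  have hnum : (a : ℤ) = q.num := by
    rw [ha]
    exact Int.toNat_of_nonneg (Rat.num_nonneg.mpr hq0.le)
  have hb0 : 0 < b := q.den_pos
  have ha0 : 0 < a := by
    have : 0 < q.num := Rat.num_pos.mpr hq0
    omega
  have hpb : p * b = a := by
    have h4 : q * q.den = q.num := Rat.mul_den_eq_num q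
    have h5 : ((q * q.den : ℚ) : ℝ) = ((q.num : ℚ) : ℝ) := by rw [h4]
    push_cast at h5
    rw [hq, ← hnum] at h5
    exact_mod_cast h5
  have hbR : (0 : ℝ) < b := by exact_mod_cast hb0
  have hab : a < b := by
    have : (a : ℝ) < b := by
      rw [← hpb]
      nlinarith
    exact_mod_cast this
  have hcop : a.Coprime b := by
    have := q.reduced
    rw [ha]
    have h4 : q.num.toNat = q.num.natAbs := by
      have : 0 ≤ q.num := Rat.num_nonneg.mpr hq0.le
      omega
    rw [h4]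
    exact this
  have hpdiv : p = (a : ℝ) / b := by
    rw [eq_div_iff hbR.ne']
    exact hpb
  refine ⟨a, b, ha0, hab, hcop, hpdiv, ?_⟩
  -- N
  have hN : ∃ N : ℤ, 2 * N = (v : ℤ) * ((v : ℤ) - 1) := by
    have h4 : (2 : ℤ) ∣ (v : ℤ) * ((v : ℤ) - 1) := by
      rcases Int.even_or_odd (v : ℤ) with h6 | h6
      · exact Dvd.dvd.mul_right h6.two_dvd _
      · apply Dvd.dvd.mul_left
        obtain ⟨r, hr⟩ := h6
        exact ⟨r, by omega⟩
    obtain ⟨N, hN⟩ := h4
    exact ⟨N, hN.symm⟩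
  obtain ⟨N, hN⟩ := hN
  have hNR : 2 * (N : ℝ) = (v : ℝ) * ((v : ℝ) - 1) := by exact_mod_cast hN
  set t : ℤ := (b : ℤ) * e - (a : ℤ) * N with ht
  have htR : (t : ℝ) = T * b / 2 := by
    rw [ht]
    push_cast
    rw [← hNR] at h1
    have : T = 2 * e - p * (2 * N) := by linarith
    rw [this]
    linear_combination (N : ℝ) * hpb
  have hwR : (((b : ℤ) - a : ℤ) : ℝ) = (1 - p) * b := by
    push_cast
    linear_combination hpb
  have haR : ((a : ℤ) : ℝ) = p * b := by
    push_cast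
    exact hpb.symm
  have hsum : (a : ℤ) + ((b : ℤ) - a) = b := by ring
  clear_value t
  refine ⟨t, k5, k9, k8, N, ?_⟩
  refine ⟨by exact_mod_cast hv, by exact_mod_cast ha0, by omega, ?_, hN, ?_, ?_, ?_, ?_⟩
  · have h4 : IsCoprime (a : ℤ) (b : ℤ) := Nat.isCoprime_iff_coprime.mpr hcop
    have h7 : IsCoprime (a : ℤ) ((b : ℤ) + a * (-1)) := h4.add_mul_left_right (-1)
    have h8 : (b : ℤ) + a * (-1) = b - a := by ring
    rwa [h8] at h7
  · have h4 : ((t * (t + (a : ℤ) - ((b : ℤ) - a)) : ℤ) : ℝ)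
        = (((a : ℤ) * ((b : ℤ) - a) * N : ℤ) : ℝ) := by
      have h6 : ((t * (t + (a : ℤ) - ((b : ℤ) - a)) : ℤ) : ℝ)
        = (t : ℝ) * ((t : ℝ) + ((a : ℤ) : ℝ) - (((b : ℤ) - a : ℤ) : ℝ)) := by push_cast; ring
      have h7 : (((a : ℤ) * ((b : ℤ) - a) * N : ℤ) : ℝ)
        = ((a : ℤ) : ℝ) * (((b : ℤ) - a : ℤ) : ℝ) * (N : ℝ) := by push_cast; ring
      rw [h6, h7, hwR, htR, haR]
      rw [← hNR] at h2
      linear_combination (b : ℝ) ^ 2 / 4 * h2
    exact_mod_cast h4
  · rw [hsum]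
    have h4 : ((120 * (b : ℤ) ^ 10 * k5 : ℤ) : ℝ) = (((a : ℤ) ^ 8 * ((a : ℤ) ^ 2 * ((v : ℤ) * (v - 1)
        * (v - 2) * (v - 3) * (v - 4)) + 20 * ((a : ℤ) * t * ((v - 2) * (v - 3) * (v - 4)))
        - 240 * (((b : ℤ) - a) * (v - 2) * t)) : ℤ) : ℝ) := by
      have h6 : (((a : ℤ) ^ 8 * ((a : ℤ) ^ 2 * ((v : ℤ) * (v - 1)
        * (v - 2) * (v - 3) * (v - 4)) + 20 * ((a : ℤ) * t * ((v - 2) * (v - 3) * (v - 4)))
        - 240 * (((b : ℤ) - a) * (v - 2) * t)) : ℤ) : ℝ)
        = ((a : ℤ) : ℝ) ^ 8 * (((a : ℤ) : ℝ) ^ 2 * ((v : ℝ) * (v - 1)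
        * (v - 2) * (v - 3) * (v - 4)) + 20 * (((a : ℤ) : ℝ) * (t : ℝ) * ((v - 2) * (v - 3)
        * (v - 4)))
        - 240 * ((((b : ℤ) - a : ℤ) : ℝ) * (v - 2) * (t : ℝ))) := by
        push_cast; ring
      rw [h6, hwR, haR, htR]
      push_cast
      linear_combination (b : ℝ) ^ 10 * h5
    exact_mod_cast h4
  · rw [hsum]
    have h4 : ((12 * (b : ℤ) ^ 9 * k9 : ℤ) : ℝ) = (((a : ℤ) ^ 7 * ((a : ℤ) ^ 2 * ((v : ℤ) * (v - 1)
        * (v - 2) * (v - 3) * (v - 4)) + 18 * ((a : ℤ) * t * ((v - 2) * (v - 3) * (v - 4)))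
        - 168 * (((b : ℤ) - a) * (v - 2) * t)) : ℤ) : ℝ) := by
      have h6 : (((a : ℤ) ^ 7 * ((a : ℤ) ^ 2 * ((v : ℤ) * (v - 1)
        * (v - 2) * (v - 3) * (v - 4)) + 18 * ((a : ℤ) * t * ((v - 2) * (v - 3) * (v - 4)))
        - 168 * (((b : ℤ) - a) * (v - 2) * t)) : ℤ) : ℝ)
        = ((a : ℤ) : ℝ) ^ 7 * (((a : ℤ) : ℝ) ^ 2 * ((v : ℝ) * (v - 1)
        * (v - 2) * (v - 3) * (v - 4)) + 18 * (((a : ℤ) : ℝ) * (t : ℝ) * ((v - 2) * (v - 3)
        * (v - 4)))
        - 168 * ((((b : ℤ) - a : ℤ) : ℝ) * (v - 2) * (t : ℝ))) := by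
        push_cast; ring
      rw [h6, hwR, haR, htR]
      push_cast
      linear_combination (b : ℝ) ^ 9 * h9
    exact_mod_cast h4
  · rw [hsum]
    have h4 : ((4 * (b : ℤ) ^ 8 * k8 : ℤ) : ℝ) = (((a : ℤ) ^ 6 * ((a : ℤ) ^ 2 * ((v : ℤ) * (v - 1)
        * (v - 2) * (v - 3) * (v - 4)) + 16 * ((a : ℤ) * t * ((v - 2) * (v - 3) * (v - 4)))
        - 104 * (((b : ℤ) - a) * (v - 2) * t)) : ℤ) : ℝ) := by
      have h6 : (((a : ℤ) ^ 6 * ((a : ℤ) ^ 2 * ((v : ℤ) * (v - 1)
        * (v - 2) * (v - 3) * (v - 4)) + 16 * ((a : ℤ) * t * ((v - 2) * (v - 3) * (v - 4)))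
        - 104 * (((b : ℤ) - a) * (v - 2) * t)) : ℤ) : ℝ)
        = ((a : ℤ) : ℝ) ^ 6 * (((a : ℤ) : ℝ) ^ 2 * ((v : ℝ) * (v - 1)
        * (v - 2) * (v - 3) * (v - 4)) + 16 * (((a : ℤ) : ℝ) * (t : ℝ) * ((v - 2) * (v - 3)
        * (v - 4)))
        - 104 * ((((b : ℤ) - a : ℤ) : ℝ) * (v - 2) * (t : ℝ))) := by
        push_cast; ring
      rw [h6, hwR, haR, htR]
      push_cast
      linear_combination (b : ℝ) ^ 8 * h8
    exact_mod_cast h4

/-- Necessary conditions on the parameters `v`, `p` of an exceptional pair `(F, p)`: `p` is rational,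
`p = a / b` in lowest terms, `b ^ 8` divides `v (v - 1) (v - 2)`, and `v ≥ 32768 = 2 ^ 15` or
`v = 19683 = 3 ^ 9` with `b = 3`. -/
theorem result (v : ℕ) (F : SimpleGraph (Fin v)) (p : ℝ) (h : Exceptional v F p) :
    ∃ a b : ℕ, 0 < a ∧ a < b ∧ a.Coprime b ∧ p = (a : ℝ) / b ∧
      b ^ 8 ∣ v * (v - 1) * (v - 2) ∧ (32768 ≤ v ∨ (v = 19683 ∧ b = 3)) := by
  obtain ⟨a, b, ha0, hab, hcop, hp, t, k5, k9, k8, N, R⟩ := rel_of_exceptional h
  have hv : 3 ≤ v := h.1
  refine ⟨a, b, ha0, hab, hcop, hp, ?_, ?_⟩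
  · have h4 := R.dvd_n
    have h5 : (a : ℤ) + ((b : ℤ) - a) = b := by ring
    rw [h5] at h4
    have h6 : ((v * (v - 1) * (v - 2) : ℕ) : ℤ) = (v : ℤ) * ((v : ℤ) - 1) * ((v : ℤ) - 2) := by
      rw [Nat.cast_mul, Nat.cast_mul, Nat.cast_sub (by omega), Nat.cast_sub (by omega)]
      push_cast; ring
    rw [← h6] at h4
    exact_mod_cast h4
  · rcases le_or_gt 32768 v with h4 | h4
    · exact Or.inl h4
    · right
      have h5 := R.main (by exact_mod_cast h4)
      have h6 : v = 19683 := by exact_mod_cast h5.1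
      have h7 : b = 3 := by
        have := h5.2
        omega
      exact ⟨h6, h7⟩

end Final

end Pool.Agent.Results.MP_b57267_co.ExceptionalOrderBound
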