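import Mathlib
import Pool.Agent.JX.M1
import Pool.Agent.JX.CLTC
import Pool.Agent.JX.MinFinal
import Pool.Agent.JX.Int
import Pool.Agent.JX.M5a
import Pool.Agent.JX.M5b
import Pool.Agent.JX.Pell
import Pool.Agent.JX.Link

/-!
# Exceptional pairs exist

The statement is in terms of unlabelled copies: the sum `S^(p)(H, F)` runs over the subgraphs of the
complete graph on the vertex set of `F` which are isomorphic to `H`.
-/

set_option autoImplicit false

namespace Pool.Agent.Results.MP_b57267_co.JansonPairs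

open Finset

/-- `x_e - p`, where `x_e = 1` if `e` is an edge of `F` and `x_e = 0` otherwise. -/
noncomputable def centred {V : Type} (F : SimpleGraph V) (p : ℝ) (e : Sym2 V) : ℝ :=
  Set.indicator F.edgeSet (fun _ => (1 : ℝ)) e - p

/-- `S^(p)(H, F)`: the sum over all subgraphs `H'` of the complete graph on the (finite) vertex set of
`F` which are isomorphic to `H` of the product of `x_e - p` over the edges `e` of `H'`. -/
noncomputable def janS {W V : Type} (p : ℝ) (H : SimpleGraph W) (F : SimpleGraph V) : ℝ :=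
  ∑ᶠ H' ∈ {H' : (⊤ : SimpleGraph V).Subgraph | Nonempty (H ≃g H'.coe)},
    ∏ᶠ e ∈ H'.edgeSet, centred F p e

/-- The family of the connected graphs on five vertices and of the graphs without isolated vertices on
three or four vertices. -/
def Family {W : Type} (H : SimpleGraph W) : Prop :=
  (Nat.card W = 5 ∧ H.Connected) ∨
    ((Nat.card W = 3 ∨ Nat.card W = 4) ∧ ∀ w : W, ∃ u : W, H.Adj w u)

/-- The pair `(F, p)` is exceptional. -/
def Exceptional {V : Type} (F : SimpleGraph V) (p : ℝ) : Prop :=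
  3 ≤ Nat.card V ∧ 0 < p ∧ p < 1 ∧
    ∀ (W : Type) (H : SimpleGraph W), Family H → janS p H F = 0

/-! ### Copies and embeddings -/

section Im

variable {k : ℕ} {V : Type} (H : SimpleGraph (Fin k))

/-- The copy of `H` defined by an injective map of the vertices. -/
def im (φ : Fin k ↪ V) : (⊤ : SimpleGraph V).Subgraph where
  verts := Set.range φ
  Adj a b := ∃ i j, H.Adj i j ∧ φ i = a ∧ φ j = b
  adj_sub := by
    rintro a b ⟨i, j, h, rfl, rfl⟩
    rw [SimpleGraph.top_adj]
    exact fun h1 => h.ne (φ.injective h1)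
  edge_vert := by
    rintro a b ⟨i, j, h, rfl, rfl⟩
    exact ⟨i, rfl⟩
  symm := ⟨by
    rintro a b ⟨i, j, h, rfl, rfl⟩
    exact ⟨j, i, h.symm, rfl, rfl⟩⟩

theorem im_adj (φ : Fin k ↪ V) (i j : Fin k) : (im H φ).Adj (φ i) (φ j) ↔ H.Adj i j := by
  constructor
  · rintro ⟨a, b, h, h1, h2⟩
    rwa [φ.injective h1, φ.injective h2] at h
  · intro h
    exact ⟨i, j, h, rfl, rfl⟩

theorem iso_im (φ : Fin k ↪ V) : Nonempty (H ≃g (im H φ).coe) := by
  refine ⟨⟨Equiv.ofInjective φ φ.injective, ?_⟩⟩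
  intro i j
  exact im_adj H φ i j

theorem exists_im {H' : (⊤ : SimpleGraph V).Subgraph} (h : Nonempty (H ≃g H'.coe)) :
    ∃ φ : Fin k ↪ V, im H φ = H' := by
  obtain ⟨f⟩ := h
  refine ⟨⟨fun i => (f i : V), fun i j hij => f.injective (Subtype.ext hij)⟩, ?_⟩
  apply SimpleGraph.Subgraph.ext
  · ext x
    constructor
    · rintro ⟨i, rfl⟩
      exact (f i).2
    · intro hx
      exact ⟨f.symm ⟨x, hx⟩, by
        change ((f (f.symm ⟨x, hx⟩) : H'.verts) : V) = x
        rw [f.apply_symm_apply]⟩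
  · funext a b
    apply propext
    constructor
    · rintro ⟨i, j, h, rfl, rfl⟩
      exact f.map_adj_iff.2 h
    · intro hab
      refine ⟨f.symm ⟨a, H'.edge_vert hab⟩, f.symm ⟨b, H'.edge_vert hab.symm⟩, ?_, ?_, ?_⟩
      · rw [← f.map_adj_iff, f.apply_symm_apply, f.apply_symm_apply]
        exact hab
      · change ((f (f.symm _) : H'.verts) : V) = a
        rw [f.apply_symm_apply]
      · change ((f (f.symm _) : H'.verts) : V) = b
        rw [f.apply_symm_apply]

/-- The automorphisms of `H`. -/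
def Aut (H : SimpleGraph (Fin k)) : Type :=
  {σ : Equiv.Perm (Fin k) // ∀ i j, H.Adj (σ i) (σ j) ↔ H.Adj i j}

instance : Finite (Aut H) := by
  unfold Aut
  infer_instance

instance : Nonempty (Aut H) := ⟨⟨1, fun _ _ => Iff.rfl⟩⟩

/-- The maps with the same copy. -/
theorem card_fiber (φ₀ : Fin k ↪ V) :
    Nat.card {φ : Fin k ↪ V // im H φ = im H φ₀} = Nat.card (Aut H) := by
  symm
  apply Nat.card_congr
  refine Equiv.ofBijective (fun σ => ⟨σ.1.toEmbedding.trans φ₀, ?_⟩) ⟨?_, ?_⟩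
  · apply SimpleGraph.Subgraph.ext
    · ext x
      constructor
      · rintro ⟨i, rfl⟩
        exact ⟨σ.1 i, rfl⟩
      · rintro ⟨i, rfl⟩
        exact ⟨σ.1.symm i, by
          change φ₀ (σ.1 (σ.1.symm i)) = φ₀ i
          rw [Equiv.apply_symm_apply]⟩
    · funext a b
      apply propext
      constructor
      · rintro ⟨i, j, h, rfl, rfl⟩
        exact ⟨σ.1 i, σ.1 j, (σ.2 i j).2 h, rfl, rfl⟩
      · rintro ⟨i, j, h, rfl, rfl⟩
        refine ⟨σ.1.symm i, σ.1.symm j, ?_, ?_, ?_⟩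
        · rw [← σ.2, Equiv.apply_symm_apply, Equiv.apply_symm_apply]
          exact h
        · change φ₀ (σ.1 (σ.1.symm i)) = φ₀ i
          rw [Equiv.apply_symm_apply]
        · change φ₀ (σ.1 (σ.1.symm j)) = φ₀ j
          rw [Equiv.apply_symm_apply]
  · intro σ τ h
    apply Subtype.ext
    apply Equiv.ext
    intro i
    have h1 := congrArg (fun x : {φ : Fin k ↪ V // im H φ = im H φ₀} => x.1 i) h
    exact φ₀.injective h1
  · rintro ⟨φ, hφ⟩
    have hr : ∀ i, ∃ j, φ₀ j = φ i := by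
      intro i
      have h1 : φ i ∈ (im H φ).verts := ⟨i, rfl⟩
      rw [hφ] at h1
      exact h1
    choose s hs using hr
    have hinj : Function.Injective s := by
      intro i j hij
      apply φ.injective
      rw [← hs, ← hs, hij]
    have hbij : Function.Bijective s := Finite.injective_iff_bijective.1 hinj
    refine ⟨⟨Equiv.ofBijective s hbij, ?_⟩, ?_⟩
    · intro i j
      change H.Adj (s i) (s j) ↔ H.Adj i j
      rw [← im_adj H φ₀, hs, hs, ← hφ, im_adj]
    · apply Subtype.ext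
      ext i
      exact hs i

variable [Finite V]

open Classical in
theorem prod_im (φ : Fin k ↪ V) (y : Sym2 V → ℝ) :
    (∏ i : Fin k, ∏ j : Fin k, if i < j ∧ H.Adj i j then y s(φ i, φ j) else 1) =
      ∏ᶠ e ∈ (im H φ).edgeSet, y e := by
  have h1 : (im H φ).edgeSet = ((univ.filter (fun q : Fin k × Fin k =>
      q.1 < q.2 ∧ H.Adj q.1 q.2)).image (fun q => s(φ q.1, φ q.2)) : Finset (Sym2 V)) := by
    ext e
    rw [Finset.mem_coe, Finset.mem_image]
    constructor
    · induction e with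
      | _ a b =>
        intro h
        rw [SimpleGraph.Subgraph.mem_edgeSet] at h
        obtain ⟨i, j, h, rfl, rfl⟩ := h
        rcases lt_or_gt_of_ne h.ne with hlt | hlt
        · exact ⟨(i, j), by rw [mem_filter]; exact ⟨mem_univ _, hlt, h⟩, rfl⟩
        · exact ⟨(j, i), by rw [mem_filter]; exact ⟨mem_univ _, hlt, h.symm⟩, Sym2.eq_swap⟩
    · rintro ⟨q, hq, rfl⟩
      rw [mem_filter] at hq
      rw [SimpleGraph.Subgraph.mem_edgeSet, im_adj]
      exact hq.2.2
  rw [h1, finprod_mem_coe_finset, prod_image]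
  · rw [prod_filter, Fintype.prod_prod_type]
  · rintro ⟨i, j⟩ hq ⟨i', j'⟩ hq' heq
    rw [Finset.mem_coe, mem_filter] at hq hq'
    have h2 : s(φ i, φ j) = s(φ i', φ j') := heq
    rw [Sym2.eq_iff] at h2
    rcases h2 with ⟨h3, h4⟩ | ⟨h3, h4⟩
    · rw [φ.injective h3, φ.injective h4]
    · have h5 := φ.injective h3
      have h6 := φ.injective h4
      subst h5 h6
      exact absurd hq.2.1 (not_lt.2 hq'.2.1.le)

/-- The sum over the injective maps is the number of automorphisms times the sum over the copies. -/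
theorem sum_emb [Fintype (Fin k ↪ V)] (g : (⊤ : SimpleGraph V).Subgraph → ℝ) :
    ∑ φ : Fin k ↪ V, g (im H φ) = Nat.card (Aut H) *
      ∑ᶠ H' ∈ {H' : (⊤ : SimpleGraph V).Subgraph | Nonempty (H ≃g H'.coe)}, g H' := by
  classical
  have h1 : {H' : (⊤ : SimpleGraph V).Subgraph | Nonempty (H ≃g H'.coe)} =
      ((univ : Finset (Fin k ↪ V)).image (im H) : Finset (⊤ : SimpleGraph V).Subgraph) := by
    ext H'
    rw [Finset.mem_coe, Finset.mem_image]
    constructor
    · intro h
      obtain ⟨φ, hφ⟩ := exists_im H h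
      exact ⟨φ, mem_univ _, hφ⟩
    · rintro ⟨φ, -, rfl⟩
      exact iso_im H φ
  rw [h1, finsum_mem_coe_finset, Finset.sum_comp g (im H), Finset.mul_sum]
  refine Finset.sum_congr rfl fun H' hH' => ?_
  rw [Finset.mem_image] at hH'
  obtain ⟨φ₀, -, rfl⟩ := hH'
  have h2 := card_fiber H φ₀
  rw [Nat.card_eq_fintype_card, Fintype.card_subtype] at h2
  rw [nsmul_eq_mul, h2]

end Im

/-! ### The result -/

open Pool.Agent.JX in
theorem exc {n t : ℕ} (hA : Adm n t) {z : Sym2 (Fin n) → Bool} (hz : Hit t z) :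
    Exceptional (gr z) (1 / 2) := by
  classical
  refine ⟨?_, by norm_num, by norm_num, ?_⟩
  · rw [Nat.card_eq_fintype_card, Fintype.card_fin]
    have := hA.1
    omega
  intro W H hH
  obtain ⟨k, hk⟩ : ∃ k, Nat.card W = k := ⟨_, rfl⟩
  have hfin : Finite W := by
    apply Nat.finite_of_card_ne_zero
    rcases hH with h | h <;> omega
  have e : W ≃ Fin k := Finite.equivFinOfCardEq hk
  obtain ⟨H0, ⟨f⟩⟩ : ∃ H0 : SimpleGraph (Fin k), Nonempty (H ≃g H0) :=
    ⟨H.map e.toEmbedding, ⟨SimpleGraph.Iso.map e H⟩⟩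
  have h0 : ((k = 3 ∨ k = 4) ∧ (∀ w : Fin k, ∃ u : Fin k, H0.Adj w u)) ∨
      (k = 5 ∧ H0.Connected) := by
    rcases hH with ⟨h1, h2⟩ | ⟨h1, h2⟩
    · right
      exact ⟨by omega, f.connected_iff.1 h2⟩
    · left
      refine ⟨by omega, fun w => ?_⟩
      obtain ⟨u, hu⟩ := h2 (f.symm w)
      refine ⟨f u, ?_⟩
      rw [← f.apply_symm_apply w, f.map_adj_iff]
      exact hu
  have h1 := link n t hA z hz k H0 h0
  have h2 : janS (1 / 2) H (gr z) = janS (1 / 2) H0 (gr z) := by
    have h3 : {H' : (⊤ : SimpleGraph (Fin n)).Subgraph | Nonempty (H ≃g H'.coe)} =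
        {H' : (⊤ : SimpleGraph (Fin n)).Subgraph | Nonempty (H0 ≃g H'.coe)} := by
      ext H'
      constructor
      · rintro ⟨a⟩
        exact ⟨f.symm.trans a⟩
      · rintro ⟨a⟩
        exact ⟨f.trans a⟩
    rw [janS, janS, h3]
  have h4 := sum_emb H0 (V := Fin n) (fun H' => ∏ᶠ e ∈ H'.edgeSet, centred (gr z) (1 / 2) e)
  have h5 : ∑ φ : Fin k ↪ Fin n, ∏ᶠ e ∈ (im H0 φ).edgeSet, centred (gr z) (1 / 2) e = 0 := by
    rw [← h1]
    refine Finset.sum_congr rfl fun φ _ => ?_
    rw [← prod_im]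
    refine Finset.prod_congr rfl fun i _ => Finset.prod_congr rfl fun j _ => ?_
    have h7 : centred (gr z) (1 / 2) s(φ i, φ j) =
        (if (gr z).Adj (φ i) (φ j) then (1 : ℝ) else 0) - 1 / 2 := by
      by_cases h8 : (gr z).Adj (φ i) (φ j)
      · rw [centred, Set.indicator_of_mem ((SimpleGraph.mem_edgeSet _).2 h8), if_pos h8]
      · rw [centred, Set.indicator_of_notMem (fun h9 => h8 ((SimpleGraph.mem_edgeSet _).1 h9)),
          if_neg h8]
    rw [h7]
  rw [h5] at h4
  rw [h2]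
  have h6 : (Nat.card (Aut H0) : ℝ) ≠ 0 := by
    have : 0 < Nat.card (Aut H0) := Nat.card_pos
    exact_mod_cast this.ne'
  rcases mul_eq_zero.1 h4.symm with h7 | h7
  · exact absurd h7 h6
  · exact h7

open Pool.Agent.JX in
theorem edges {n t : ℕ} (hA : Adm n t) {z : Sym2 (Fin n) → Bool} (hz : Hit t z) :
    2 * (gr z).edgeSet.ncard = t * (t + 1) := by
  classical
  have h1 := hz.1
  have hc : (univ.filter (fun e : Sym2 (Fin n) => ¬ e.IsDiag)).card = t ^ 2 := by
    have h2 := Sym2.card_subtype_not_diag (α := Fin n)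
    rw [Fintype.card_subtype, Fintype.card_fin, Nat.choose_two_right, hA.2.1] at h2
    rw [h2]
    omega
  have hE : (gr z).edgeSet = (univ.filter (fun e : Sym2 (Fin n) => ¬ e.IsDiag ∧ z e = true) :
      Finset (Sym2 (Fin n))) := by
    ext e
    induction e with
    | _ a b =>
      rw [SimpleGraph.mem_edgeSet, Finset.mem_coe, mem_filter, Sym2.mk_isDiag_iff]
      exact ⟨fun h => ⟨mem_univ _, h⟩, fun h => h.2⟩
  rw [hE, Set.ncard_coe_finset]
  have h3 : T2 z = 2 * (univ.filter (fun e : Sym2 (Fin n) => ¬ e.IsDiag ∧ z e = true)).card -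
      (univ.filter (fun e : Sym2 (Fin n) => ¬ e.IsDiag)).card := by
    have h4 : ∀ e : Sym2 (Fin n), sg (z e) = 2 * (if z e = true then (1 : ℝ) else 0) - 1 := by
      intro e
      rw [sg]
      split_ifs <;> norm_num
    rw [T2, Finset.sum_congr rfl (fun e _ => h4 e), Finset.sum_sub_distrib, ← Finset.mul_sum,
      ← Finset.sum_filter, Finset.filter_filter]
    simp
  rw [h3, hc] at h1
  have h5 : (2 * ((univ.filter (fun e : Sym2 (Fin n) => ¬ e.IsDiag ∧ z e = true)).card : ℝ)) =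
      t * (t + 1) := by
    push_cast at h1
    linarith
  exact_mod_cast h5

/-- For all sufficiently large `n` such that `n (n - 1) = 2 t ^ 2` and `2 ^ 11 * 120!` divides `n - 1`
and `t` there is a graph `F` on `n` vertices, with `t (t + 1) / 2` edges, such that `(F, 1 / 2)` is
exceptional; there are infinitely many such `n`. -/
theorem result :
    (∃ n₀ : ℕ, ∀ n t : ℕ, n₀ ≤ n → n * (n - 1) = 2 * t ^ 2 → 2 ^ 11 * Nat.factorial 120 ∣ n - 1 →
      2 ^ 11 * Nat.factorial 120 ∣ t →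
      ∃ F : SimpleGraph (Fin n), Exceptional F (1 / 2) ∧ 2 * F.edgeSet.ncard = t * (t + 1)) ∧
    {n : ℕ | ∃ t : ℕ, n * (n - 1) = 2 * t ^ 2 ∧ 2 ^ 11 * Nat.factorial 120 ∣ n - 1 ∧
      2 ^ 11 * Nat.factorial 120 ∣ t}.Infinite := by
  constructor
  · obtain ⟨n₀, h⟩ := Pool.Agent.JX.stmtHit
      (Pool.Agent.JX.clt Pool.Agent.JX.parseval Pool.Agent.JX.hyper) Pool.Agent.JX.stmtMinor
      Pool.Agent.JX.int Pool.Agent.JX.stmtLin Pool.Agent.JX.stmtCard Pool.Agent.JX.stmtCoef
    refine ⟨max n₀ 5, fun n t hn h1 h2 h3 => ?_⟩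
    have hA : Pool.Agent.JX.Adm n t := ⟨(le_max_right _ _).trans hn, h1, h2, h3⟩
    obtain ⟨z, hz⟩ := h n t ((le_max_left _ _).trans hn) hA
    exact ⟨Pool.Agent.JX.gr z, exc hA hz, edges hA hz⟩
  · rw [Set.infinite_iff_exists_gt]
    intro a
    obtain ⟨n, t, hn, hA⟩ := Pool.Agent.JX.stmtPell (a + 1)
    exact ⟨n, ⟨t, hA.2.1, hA.2.2.1, hA.2.2.2⟩, hn⟩

end Pool.Agent.Results.MP_b57267_co.JansonPairs
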